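import Pool.Agent.TH594.MG.B3

/-! Assembly: every rank-one convex planar energy with a volumetric-isochoric split is
quasiconvex. -/

set_option autoImplicit false

namespace Pool.Agent.TH594.MG

open MeasureTheory Set Filter Topology Pool.Agent.W360.MQ
open scoped ComplexConjugate Matrix.Norms.L2Operator

/-- both cases -/
theorem full {h f : ℝ → ℝ} {W : M2 → ℝ} (hh : ContDiffOn ℝ 2 h (Ici 1))
    (hf : ContDiffOn ℝ 2 f (Ioi 0))
    (hW : ∀ A : M2, 0 < A.det → W A = h (‖A‖ ^ 2 / A.det) + f A.det)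
    (hR : RankOneConvexPos W)
    {F₀ : M2} {Ω : Set V2} {ϑ v : V2 → V2} {K K' : NNReal} (hH : Hom F₀ Ω ϑ v K K') :
    IntegrableOn (fun x => W (F₀ + mx ϑ x)) Ω ∧
      W F₀ * (volume Ω).toReal ≤ ∫ x in Ω, W (F₀ + mx ϑ x) := by
  by_cases hN : ∀ c : ℝ, 0 < c → ¬ ConvexOn ℝ (Ioi 0) fun z => f z + c * Real.log z
  · exact caseA hh hf hW hR hN hH
  · push Not at hN
    obtain ⟨c, hc, hcv⟩ := hN
    have hlow : ∀ z, 0 < z → c ≤ z ^ 2 * deriv (deriv f) z := by
      intro z hz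
      have h1 : ∀ s : ℝ, 0 < s → HasDerivAt (fun z => f z + c * Real.log z)
          (deriv f s + c * s⁻¹) s := fun s hs =>
        (f_der hf hs).1.add ((Real.hasDerivAt_log hs.ne').const_mul c)
      have h2 : HasDerivAt (fun s => deriv f s + c * s⁻¹)
          (deriv (deriv f) z + c * (-(z ^ 2)⁻¹)) z :=
        (f_der hf hz).2.add ((hasDerivAt_inv hz.ne').const_mul c)
      have h3 := snd_nonneg hcv h1 hz h2
      have h4 : z ^ 2 * (deriv (deriv f) z + c * (-(z ^ 2)⁻¹)) = z ^ 2 * deriv (deriv f) z - c := by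
        field_simp
        ring
      have h5 := mul_nonneg (sq_nonneg z) h3
      rw [h4] at h5
      linarith
    set B : Set ℝ := (fun z => z ^ 2 * deriv (deriv f) z) '' Ioi 0 with hB
    have hBne : B.Nonempty := ⟨_, 1, by norm_num [mem_Ioi], rfl⟩
    have hBb : BddBelow B := ⟨c, by
      rintro b ⟨z, hz, rfl⟩
      exact hlow z hz⟩
    have hγ : 0 < sInf B := lt_of_lt_of_le hc (le_csInf hBne (by
      rintro b ⟨z, hz, rfl⟩
      exact hlow z hz))
    refine caseB hh hf hW hR hγ (fun z hz => csInf_le hBb ⟨z, hz, rfl⟩) ?_ hH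
    intro ε hε
    obtain ⟨b, ⟨z, hz, rfl⟩, hb⟩ := exists_lt_of_csInf_lt hBne
      (show sInf B < sInf B + ε by linarith)
    exact ⟨z, hz, hb⟩

/-- the function `σ₁/σ₂ + 2 log σ₂` -/
theorem magic {F₀ : M2} {Ω : Set V2} {ϑ v : V2 → V2} {K K' : NNReal}
    (hH : Hom F₀ Ω ϑ v K K') :
    IntegrableOn (fun x => ‖F₀ + mx ϑ x‖ ^ 2 / (F₀ + mx ϑ x).det
        + 2 * Real.log ((F₀ + mx ϑ x).det / ‖F₀ + mx ϑ x‖)) Ω ∧
      (‖F₀‖ ^ 2 / F₀.det + 2 * Real.log (F₀.det / ‖F₀‖)) * (volume Ω).toReal ≤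
        ∫ x in Ω, (‖F₀ + mx ϑ x‖ ^ 2 / (F₀ + mx ϑ x).det
          + 2 * Real.log ((F₀ + mx ϑ x).det / ‖F₀ + mx ϑ x‖)) := by
  have hW : ∀ A : M2, 0 < A.det →
      (fun A : M2 => ‖A‖ ^ 2 / A.det + 2 * Real.log (A.det / ‖A‖)) A
        = (fun k => k - Real.log k) (‖A‖ ^ 2 / A.det) + Real.log A.det := by
    intro A hA
    have hn := norm_pos' A hA
    have hl1 : Real.log (A.det / ‖A‖) = Real.log A.det - Real.log ‖A‖ :=
      Real.log_div hA.ne' hn.ne'
    have hl2 : Real.log (‖A‖ ^ 2 / A.det) = 2 * Real.log ‖A‖ - Real.log A.det := by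
      rw [Real.log_div (pow_ne_zero 2 hn.ne') hA.ne', Real.log_pow]
      push_cast
      ring
    simp only
    rw [hl1, hl2]
    ring
  have hlc : ContinuousOn Real.log (Ioi 0) :=
    Real.continuousOn_log.mono fun x hx => ne_of_gt hx
  refine fin_of_supp (h := fun k => k - Real.log k) (f := Real.log)
    (W := fun A : M2 => ‖A‖ ^ 2 / A.det + 2 * Real.log (A.det / ‖A‖))
    (c := 1) (C0 := 0) (lam := 0) (eta := 0) (al := 0) (be := 0) ?_ hlc hW hH zero_le_one ?_ ?_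
  · refine continuousOn_id.sub (Real.continuousOn_log.mono fun x hx => ?_)
    have : (1 : ℝ) ≤ x := hx
    simp only [mem_compl_iff, mem_singleton_iff]
    linarith
  · intro A hA
    have e := hW A hA
    simp only at e
    rw [e]
    simp
  · have e := hW F₀ hH.det
    simp only at e
    rw [e]
    simp

end Pool.Agent.TH594.MG
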