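import Pool.Agent.TH594.MG.Fin

/-! Case B: `f + c log` is convex for some `c > 0`.  The line of matrices
`A(y) = [[c + 2y, -σ], [σ, c]]`, `c² + σ² = 1`. -/

set_option autoImplicit false

namespace Pool.Agent.TH594.MG

open MeasureTheory Set Filter Topology Pool.Agent.W360.MQ
open scoped ComplexConjugate Matrix.Norms.L2Operator

/-- `|u_z|` along the line -/
noncomputable def xx (c y : ℝ) : ℝ := Real.sqrt (y ^ 2 + 2 * c * y + 1)
/-- the ratio of the singular values along the line -/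
noncomputable def Kc (c y : ℝ) : ℝ := (xx c y + y) ^ 2 / (1 + 2 * c * y)

variable {c y : ℝ}

lemma dpos (hc : 0 ≤ c) (hy : 0 ≤ y) : 0 < 1 + 2 * c * y := by positivity

lemma rpos (hc : 0 ≤ c) (hy : 0 ≤ y) : 0 < y ^ 2 + 2 * c * y + 1 := by positivity

lemma xx_sq (hc : 0 ≤ c) (hy : 0 ≤ y) : xx c y ^ 2 = y ^ 2 + 2 * c * y + 1 :=
  Real.sq_sqrt (rpos hc hy).le

lemma xx_pos (hc : 0 ≤ c) (hy : 0 ≤ y) : 0 < xx c y := Real.sqrt_pos.2 (rpos hc hy)

lemma Kc_ge (hc : 0 ≤ c) (hy : 0 ≤ y) : 1 ≤ Kc c y := by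
  unfold Kc
  rw [one_le_div (dpos hc hy)]
  nlinarith [xx_sq hc hy, xx_pos hc hy, mul_nonneg (xx_pos hc hy).le hy]

lemma Kc_gt (hc : 0 ≤ c) (hy : 0 < y) : 1 < Kc c y := by
  unfold Kc
  rw [one_lt_div (dpos hc hy.le)]
  nlinarith [xx_sq hc hy.le, xx_pos hc hy.le, mul_pos (xx_pos hc hy.le) hy]

lemma xx_der (hc : 0 ≤ c) (hy : 0 ≤ y) : HasDerivAt (xx c) ((y + c) / xx c y) y := by
  have h1 : HasDerivAt (fun y : ℝ => y ^ 2 + 2 * c * y + 1) ((2 : ℕ) * y ^ (2 - 1) * 1 + 2 * c * 1) y :=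
    (((hasDerivAt_id y).pow 2).add ((hasDerivAt_id y).const_mul (2 * c))).add_const 1
  have h2 := h1.sqrt (rpos hc hy).ne'
  refine h2.congr_deriv ?_
  unfold xx
  have := Real.sqrt_pos.2 (rpos hc hy)
  field_simp
  push_cast
  ring

lemma Kc_der (hc : 0 ≤ c) (hy : 0 ≤ y) :
    HasDerivAt (Kc c) (2 * Kc c y * (1 + c * y) / (xx c y * (1 + 2 * c * y))) y := by
  have h1 : HasDerivAt (fun y : ℝ => (xx c y + y) ^ 2)
      ((2 : ℕ) * (xx c y + y) ^ (2 - 1) * ((y + c) / xx c y + 1)) y :=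
    ((xx_der hc hy).add (hasDerivAt_id y)).pow 2
  have h2 : HasDerivAt (fun y : ℝ => 1 + 2 * c * y) (2 * c * 1) y :=
    ((hasDerivAt_id y).const_mul (2 * c)).const_add 1
  have h3 := h1.div h2 (dpos hc hy).ne'
  refine h3.congr_deriv ?_
  unfold Kc
  have hx := xx_pos hc hy
  have hd := dpos hc hy
  have hs := xx_sq hc hy
  have hd' : 1 + 2 * c * y = xx c y ^ 2 - y ^ 2 := by rw [hs]; ring
  field_simp
  push_cast
  simp only [Nat.reduceSub, pow_one, mul_one]
  have key : (xx c y + y) * (y + c + xx c y) * (1 + 2 * c * y) * 2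
      - (xx c y + y) ^ 2 * (2 * c) * xx c y
      = 2 * (xx c y + y) ^ 2 * (1 + c * y) := by
    have e : 1 = xx c y ^ 2 - y ^ 2 - 2 * c * y := by rw [hs]; ring
    rw [hd']
    nlinarith [e]
  nlinarith [key]

lemma Kc_cd (hc : 0 ≤ c) : ContDiffOn ℝ 2 (Kc c) (Ioi 0) := by
  have h1 : ContDiffOn ℝ 2 (xx c) (Ioi 0) := by
    intro y hy
    have hy0 : (0 : ℝ) < y := hy
    have h2 : ContDiffAt ℝ 2 (fun y : ℝ => y ^ 2 + 2 * c * y + 1) y := by fun_prop
    exact (h2.sqrt (rpos hc hy0.le).ne').contDiffWithinAt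
  have h3 : ContDiffOn ℝ 2 (fun y : ℝ => (xx c y + y) ^ 2) (Ioi 0) :=
    (h1.add contDiffOn_id).pow 2
  have h4 : ContDiffOn ℝ 2 (fun y : ℝ => 1 + 2 * c * y) (Ioi 0) := by fun_prop
  exact h3.div h4 fun y hy => (dpos hc (le_of_lt hy)).ne'

/-- the line -/
def An (c σ y : ℝ) : M2 := !![c + 2 * y, -σ; σ, c]

lemma An_facts {σ : ℝ} (hcs : c ^ 2 + σ ^ 2 = 1) (hc : 0 ≤ c) (hy : 0 ≤ y) {r : ℝ} (hr : 0 < r) :
    (r • An c σ y).det = r ^ 2 * (1 + 2 * c * y) ∧
      ‖r • An c σ y‖ ^ 2 / (r • An c σ y).det = Kc c y := by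
  have hdet : (r • An c σ y).det = r ^ 2 * (1 + 2 * c * y) := by
    unfold An
    rw [Matrix.det_fin_two]
    simp
    nlinarith
  have h1 : ‖(cab (r • An c σ y)).1‖ = r * xx c y := by
    have e : (cab (r • An c σ y)).1 = ((r * (c + y) : ℝ) : ℂ) + ((r * σ : ℝ) : ℂ) * Complex.I := by
      unfold cab An
      simp
      ring
    rw [e, Complex.norm_add_mul_I]
    unfold xx
    rw [← Real.sqrt_sq hr.le, ← Real.sqrt_mul (sq_nonneg r)]
    rw [Real.sqrt_sq hr.le]
    congr 1
    nlinarith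
  have h2 : ‖(cab (r • An c σ y)).2‖ = r * y := by
    have e : (cab (r • An c σ y)).2 = ((r * y : ℝ) : ℂ) := by
      unfold cab An
      simp
      ring
    rw [e, Complex.norm_real, Real.norm_eq_abs, abs_of_nonneg (by positivity)]
  refine ⟨hdet, ?_⟩
  rw [hdet, (opn _).1, h1, h2]
  unfold Kc
  have hd := dpos hc hy
  field_simp

/-- rank-one convexity along the line -/
lemma line_convex {h f : ℝ → ℝ} {W : M2 → ℝ}
    (hW : ∀ A : M2, 0 < A.det → W A = h (‖A‖ ^ 2 / A.det) + f A.det)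
    (hR : RankOneConvexPos W) (hc : 0 ≤ c) (hc1 : c ≤ 1) {r : ℝ} (hr : 0 < r) :
    ConvexOn ℝ (Ioi 0) fun y => h (Kc c y) + f (r ^ 2 * (1 + 2 * c * y)) := by
  set σ : ℝ := Real.sqrt (1 - c ^ 2) with hσ
  have hcs : c ^ 2 + σ ^ 2 = 1 := by
    rw [hσ, Real.sq_sqrt (by nlinarith)]
    ring
  have hval : ∀ y : ℝ, 0 < y → W (r • An c σ y) = h (Kc c y) + f (r ^ 2 * (1 + 2 * c * y)) := by
    intro y hy
    obtain ⟨h1, h2⟩ := An_facts hcs hc hy.le hr
    have hd := dpos hc hy.le
    rw [hW _ (by rw [h1]; positivity), h2, h1]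
  refine ⟨convex_Ioi 0, ?_⟩
  intro x hx y hy a b ha hb hab
  have hx0 : (0 : ℝ) < x := hx
  have hy0 : (0 : ℝ) < y := hy
  rcases eq_or_ne x y with hxy | hxy
  · subst hxy
    have : a • x + b • x = x := by rw [← add_smul, hab, one_smul]
    simp only [this]
    rw [← add_smul, hab, one_smul]
  · set H : M2 := !![2 * r * (y - x), 0; 0, 0] with hH
    have e1 : r • An c σ x + H = r • An c σ y := by
      rw [hH]
      unfold An
      ext i j
      fin_cases i <;> fin_cases j <;> simp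
      ring
    have hrk : H.rank = 1 := by
      have e2 : H = Matrix.vecMulVec ![2 * r * (y - x), 0] ![1, 0] := by
        rw [hH]
        ext i j
        fin_cases i <;> fin_cases j <;> simp [Matrix.vecMulVec]
      refine le_antisymm ?_ ?_
      · rw [e2]
        exact Matrix.rank_vecMulVec_le _ _
      · rw [Nat.one_le_iff_ne_zero]
        intro h0
        rw [Matrix.rank, Submodule.finrank_eq_zero, LinearMap.range_eq_bot] at h0
        have h1 : H.mulVecLin (Pi.single 0 1) 0 = 0 := by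
          rw [h0]
          rfl
        rw [hH] at h1
        simp [Matrix.mulVecLin_apply, Matrix.mulVec, dotProduct, Fin.sum_univ_two] at h1
        rcases h1 with h1 | h1
        · exact hr.ne' h1
        · exact hxy (by linarith)
    have hdx := dpos hc hx0.le
    have hdy := dpos hc hy0.le
    have h3 := hR (r • An c σ x) H hrk
      (by rw [(An_facts hcs hc hx0.le hr).1]; positivity)
      (by rw [e1, (An_facts hcs hc hy0.le hr).1]; positivity) b hb (by linarith)
    rw [e1, hval x hx0, hval y hy0] at h3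
    have ha' : 1 - b = a := by linarith
    rw [ha'] at h3
    have e3 : a • (r • An c σ x) + b • (r • An c σ y) = r • An c σ (a * x + b * y) := by
      unfold An
      ext i j
      fin_cases i <;> fin_cases j <;> simp
      · have : c = (a + b) * c := by rw [hab, one_mul]
        linear_combination r * (-this)
      · have : σ = (a + b) * σ := by rw [hab, one_mul]
        linear_combination r * this
      · have : σ = (a + b) * σ := by rw [hab, one_mul]
        linear_combination r * (-this)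
      · have : c = (a + b) * c := by rw [hab, one_mul]
        linear_combination r * (-this)
    have hpos : 0 < a * x + b * y := by
      rcases eq_or_lt_of_le ha with h0 | h0
      · rw [← h0, zero_add] at hab
        rw [← h0, hab]
        linarith
      · have := mul_pos h0 hx0
        have := mul_nonneg hb hy0.le
        linarith
    rw [e3, hval _ hpos] at h3
    simpa only [smul_eq_mul] using h3

end Pool.Agent.TH594.MG
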