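import Pool.Agent.TH594.MG.B1

/-! Case B: convexity along the lines, and the lower bound. -/

set_option autoImplicit false

namespace Pool.Agent.TH594.MG

open MeasureTheory Set Filter Topology Pool.Agent.W360.MQ
open scoped ComplexConjugate Matrix.Norms.L2Operator

lemma snd_nonneg {φ φ1 : ℝ → ℝ} {φ2 a y : ℝ} (hc : ConvexOn ℝ (Ioi a) φ)
    (h1 : ∀ s, a < s → HasDerivAt φ (φ1 s) s) (hy : a < y) (h2 : HasDerivAt φ1 φ2 y) :
    0 ≤ φ2 := by
  have hmono : MonotoneOn (deriv φ) (Ioi a) :=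
    hc.monotoneOn_deriv fun s hs => (h1 s hs).differentiableAt
  have hmono1 : MonotoneOn φ1 (Ioi a) := by
    intro u hu v hv huv
    have := hmono hu hv huv
    rw [(h1 u hu).deriv, (h1 v hv).deriv] at this
    exact this
  refine h2.hasDerivWithinAt.nonneg_of_monotoneOn (s := Ioi a) ?_ hmono1
  have : 𝓝[Ioi a \ {y}] y ≠ ⊥ := by
    have h1 : 𝓝[≠] y ≤ 𝓝[Ioi a \ {y}] y := by
      refine nhdsWithin_le_iff.2 ?_
      refine sdiff_mem ?_ ?_
      · exact mem_nhdsWithin_of_mem_nhds (isOpen_Ioi.mem_nhds hy)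
      · exact self_mem_nhdsWithin
    exact (NeBot.mono inferInstance h1).ne
  rw [accPt_principal_iff_nhdsWithin]
  exact ⟨this⟩

/-- `h(K(y)) - γ log d(y)` is convex -/
theorem T_conv {h f : ℝ → ℝ} (hh : ContDiffOn ℝ 2 h (Ici 1)) (hf : ContDiffOn ℝ 2 f (Ioi 0))
    {c γ : ℝ} (hc : 0 ≤ c)
    (hγ : ∀ ε : ℝ, 0 < ε → ∃ z, 0 < z ∧ z ^ 2 * deriv (deriv f) z < γ + ε)
    (hL : ∀ r : ℝ, 0 < r →
      ConvexOn ℝ (Ioi 0) fun y => h (Kc c y) + f (r ^ 2 * (1 + 2 * c * y))) :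
    ConvexOn ℝ (Ici 0) fun y => h (Kc c y) - γ * Real.log (1 + 2 * c * y) := by
  set H : ℝ → ℝ := fun y => h (Kc c y) with hH
  have hHc : ContDiffOn ℝ 2 H (Ioi 0) :=
    (hh.mono Ioi_subset_Ici_self).comp (Kc_cd hc) fun y hy => Kc_gt hc hy
  have key : ∀ y : ℝ, 0 < y →
      0 ≤ deriv (deriv H) y + γ * (2 * c / (1 + 2 * c * y)) ^ 2 := by
    intro y hy
    have hd := dpos hc hy.le
    have h1 : ∀ z : ℝ, 0 < z →
        0 ≤ deriv (deriv H) y + (2 * c / (1 + 2 * c * y)) ^ 2 * (z ^ 2 * deriv (deriv f) z) := by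
      intro z hz
      set r : ℝ := Real.sqrt (z / (1 + 2 * c * y)) with hr
      have hr0 : 0 < r := Real.sqrt_pos.2 (by positivity)
      have hr2 : r ^ 2 = z / (1 + 2 * c * y) := Real.sq_sqrt (by positivity)
      have hlin : ∀ s : ℝ, HasDerivAt (fun s : ℝ => r ^ 2 * (1 + 2 * c * s))
          (r ^ 2 * (2 * c)) s := by
        intro s
        have h2 : HasDerivAt (fun s : ℝ => r ^ 2 * (1 + 2 * c * s))
            (r ^ 2 * (2 * c * 1)) s :=
          (((hasDerivAt_id s).const_mul (2 * c)).const_add 1).const_mul (r ^ 2)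
        rw [mul_one] at h2
        exact h2
      have hd1 : ∀ s, 0 < s → HasDerivAt (fun s => H s + f (r ^ 2 * (1 + 2 * c * s)))
          (deriv H s + deriv f (r ^ 2 * (1 + 2 * c * s)) * (r ^ 2 * (2 * c))) s := by
        intro s hs
        have hds := dpos hc hs.le
        exact (f_der hHc hs).1.add ((f_der hf (by positivity)).1.comp s (hlin s))
      have hz' : r ^ 2 * (1 + 2 * c * y) = z := by
        rw [hr2]
        field_simp
      have c2 : HasDerivAt (deriv f) (deriv (deriv f) z) (r ^ 2 * (1 + 2 * c * y)) := by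
        rw [hz']
        exact (f_der hf hz).2
      have hd2 := (f_der hHc hy).2.add ((c2.comp y (hlin y)).mul_const (r ^ 2 * (2 * c)))
      have h3 := snd_nonneg (hL r hr0) hd1 hy hd2
      have h4 : deriv (deriv f) z * (r ^ 2 * (2 * c)) * (r ^ 2 * (2 * c))
          = (2 * c / (1 + 2 * c * y)) ^ 2 * (z ^ 2 * deriv (deriv f) z) := by
        rw [hr2]
        field_simp
      rw [h4] at h3
      exact h3
    by_contra hneg
    push Not at hneg
    set κ : ℝ := (2 * c / (1 + 2 * c * y)) ^ 2 with hκ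
    have hκ0 : 0 ≤ κ := sq_nonneg _
    set δ : ℝ := -(deriv (deriv H) y + γ * κ) with hδ
    have hδ0 : 0 < δ := by rw [hδ]; linarith
    obtain ⟨z, hz, hzz⟩ := hγ (δ / (κ + 1)) (by positivity)
    have h5 := h1 z hz
    have h6 : κ * (z ^ 2 * deriv (deriv f) z) ≤ κ * (γ + δ / (κ + 1)) :=
      mul_le_mul_of_nonneg_left hzz.le hκ0
    have h7 : κ * (δ / (κ + 1)) < δ := by
      rw [mul_div_assoc', div_lt_iff₀ (by linarith)]
      nlinarith
    nlinarith
  have hlin : ∀ s : ℝ, HasDerivAt (fun s : ℝ => 1 + 2 * c * s) (2 * c) s := by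
    intro s
    have h2 : HasDerivAt (fun s : ℝ => 1 + 2 * c * s) (2 * c * 1) s :=
      ((hasDerivAt_id s).const_mul (2 * c)).const_add 1
    rw [mul_one] at h2
    exact h2
  have hd : ∀ y, 0 < y → HasDerivAt (fun y => H y - γ * Real.log (1 + 2 * c * y))
      (deriv H y - γ * (2 * c / (1 + 2 * c * y))) y := fun y hy =>
    (f_der hHc hy).1.sub (((hlin y).log (dpos hc hy.le).ne').const_mul γ)
  have hdd : ∀ y, 0 < y → HasDerivAt (deriv fun y => H y - γ * Real.log (1 + 2 * c * y))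
      (deriv (deriv H) y - γ * (-(2 * c / (1 + 2 * c * y)) ^ 2)) y := by
    intro y hy
    have hdp := dpos hc hy.le
    have h3 : HasDerivAt (fun y : ℝ => 2 * c / (1 + 2 * c * y))
        (-(2 * c / (1 + 2 * c * y)) ^ 2) y := by
      have h4 := ((hasDerivAt_const y (2 * c)).div (hlin y) hdp.ne')
      refine h4.congr_deriv ?_
      field_simp
      ring
    have h5 := (f_der hHc hy).2.sub (h3.const_mul γ)
    refine h5.congr_of_eventuallyEq ?_
    filter_upwards [isOpen_Ioi.mem_nhds hy] with s hs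
    exact (hd s hs).deriv
  refine convexOn_of_deriv2_nonneg (convex_Ici 0) ?_ ?_ ?_ ?_
  · have a1 : ContinuousOn (Kc c) (Ici 0) := fun y hy =>
      (Kc_der hc hy).continuousAt.continuousWithinAt
    have a2 : ContinuousOn H (Ici 0) := hh.continuousOn.comp a1 fun y hy => Kc_ge hc hy
    refine a2.sub (continuousOn_const.mul ?_)
    intro y hy
    exact ((hlin y).log (dpos hc hy).ne').continuousAt.continuousWithinAt
  · rw [interior_Ici]
    intro z hz
    exact (hd z hz).differentiableAt.differentiableWithinAt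
  · rw [interior_Ici]
    intro z hz
    exact (hdd z hz).differentiableAt.differentiableWithinAt
  · rw [interior_Ici]
    intro y hy
    show 0 ≤ deriv (deriv fun y => H y - γ * Real.log (1 + 2 * c * y)) y
    rw [(hdd y hy).deriv]
    have := key y hy
    linarith

/-- the tangent line of `h(K(y)) - γ log d(y)` -/
theorem T_supp {h : ℝ → ℝ} {c γ y0 h0 : ℝ} (hc : 0 ≤ c) (hy0 : 0 ≤ y0)
    (hT : ConvexOn ℝ (Ici 0) fun y => h (Kc c y) - γ * Real.log (1 + 2 * c * y))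
    (hd : HasDerivWithinAt h h0 (Ici 1) (Kc c y0))
    (hs : Kc c y0 * h0 = 2 * γ * c * xx c y0) {y : ℝ} (hy : 0 ≤ y) :
    h (Kc c y0) - γ * Real.log (1 + 2 * c * y0) + 2 * γ * c * (y - y0)
      ≤ h (Kc c y) - γ * Real.log (1 + 2 * c * y) := by
  set T : ℝ → ℝ := fun y => h (Kc c y) - γ * Real.log (1 + 2 * c * y) with hTdef
  have hdp := dpos hc hy0
  have hxp := xx_pos hc hy0
  have hlin : HasDerivAt (fun s : ℝ => 1 + 2 * c * s) (2 * c) y0 := by
    have h2 : HasDerivAt (fun s : ℝ => 1 + 2 * c * s) (2 * c * 1) y0 :=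
      ((hasDerivAt_id y0).const_mul (2 * c)).const_add 1
    rw [mul_one] at h2
    exact h2
  have hTd : HasDerivWithinAt T (2 * γ * c) (Ici 0) y0 := by
    have h1 : HasDerivWithinAt (h ∘ Kc c)
        (h0 * (2 * Kc c y0 * (1 + c * y0) / (xx c y0 * (1 + 2 * c * y0)))) (Ici 0) y0 :=
      hd.comp y0 (Kc_der hc hy0).hasDerivWithinAt fun y hy => Kc_ge hc hy
    have h2 := h1.sub (((hlin.log hdp.ne').const_mul γ).hasDerivWithinAt (s := Ici 0))
    refine h2.congr_deriv ?_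
    have e : h0 * (2 * Kc c y0 * (1 + c * y0) / (xx c y0 * (1 + 2 * c * y0)))
        = (Kc c y0 * h0) * (2 * (1 + c * y0)) / (xx c y0 * (1 + 2 * c * y0)) := by ring
    rw [e, hs]
    field_simp
    ring
  rcases lt_trichotomy y y0 with hlt' | heq | hgt
  · have h2 := hT.slope_le_of_hasDerivWithinAt (mem_Ici.2 hy) (mem_Ici.2 hy0) hlt' hTd
    rw [slope_def_field, div_le_iff₀ (by linarith)] at h2
    have h3 : T y0 - T y ≤ 2 * γ * c * (y0 - y) := h2
    show T y0 + 2 * γ * c * (y - y0) ≤ T y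
    linarith
  · subst heq
    simp
  · have h2 := hT.le_slope_of_hasDerivWithinAt (mem_Ici.2 hy0) (mem_Ici.2 hy) hgt hTd
    rw [slope_def_field, le_div_iff₀ (by linarith)] at h2
    have h3 : 2 * γ * c * (y - y0) ≤ T y - T y0 := h2
    show T y0 + 2 * γ * c * (y - y0) ≤ T y
    linarith

/-- position of a matrix relative to the line -/
lemma param {c : ℝ} (hc : 0 ≤ c) {A : M2} (hA : 0 < A.det) {y : ℝ} (hy : 0 ≤ y)
    (he : y ^ 2 * A.det = ‖(cab A).2‖ ^ 2 * (1 + 2 * c * y)) :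
    ∃ l : ℝ, 0 < l ∧ A.det = l ^ 2 * (1 + 2 * c * y) ∧ ‖(cab A).2‖ = l * y ∧
      ‖A‖ ^ 2 / A.det = Kc c y := by
  have hd := dpos hc hy
  set l : ℝ := Real.sqrt (A.det / (1 + 2 * c * y)) with hl
  have hl0 : 0 < l := Real.sqrt_pos.2 (by positivity)
  have hl2 : l ^ 2 = A.det / (1 + 2 * c * y) := Real.sq_sqrt (by positivity)
  have h1 : A.det = l ^ 2 * (1 + 2 * c * y) := by
    rw [hl2]
    field_simp
  have h2 : ‖(cab A).2‖ = l * y := by
    refine (pow_left_inj₀ (norm_nonneg _) (by positivity) two_ne_zero).1 ?_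
    rw [mul_pow, hl2]
    field_simp
    linarith
  have h3 : ‖(cab A).1‖ = l * xx c y := by
    refine (pow_left_inj₀ (norm_nonneg _) (mul_pos hl0 (xx_pos hc hy)).le two_ne_zero).1 ?_
    have h4 := (opn A).2
    rw [mul_pow, xx_sq hc hy]
    have h5 : ‖(cab A).1‖ ^ 2 = A.det + ‖(cab A).2‖ ^ 2 := by rw [h4]; ring
    rw [h5, h2, h1]
    ring
  refine ⟨l, hl0, h1, h2, ?_⟩
  rw [(opn A).1, h2, h3, h1]
  unfold Kc
  field_simp

lemma param_ex {c : ℝ} (hc : 0 ≤ c) {A : M2} (hA : 0 < A.det) :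
    ∃ y : ℝ, 0 ≤ y ∧ y ^ 2 * A.det = ‖(cab A).2‖ ^ 2 * (1 + 2 * c * y) := by
  set R : ℝ := ‖(cab A).2‖ ^ 2 / A.det with hR
  have hR0 : 0 ≤ R := by positivity
  refine ⟨c * R + Real.sqrt (c ^ 2 * R ^ 2 + R), by positivity, ?_⟩
  have h1 : Real.sqrt (c ^ 2 * R ^ 2 + R) ^ 2 = c ^ 2 * R ^ 2 + R := Real.sq_sqrt (by positivity)
  have h2 : ‖(cab A).2‖ ^ 2 = R * A.det := by
    rw [hR]
    field_simp
  rw [h2]
  have h3 : (c * R + Real.sqrt (c ^ 2 * R ^ 2 + R)) ^ 2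
      = R * (1 + 2 * c * (c * R + Real.sqrt (c ^ 2 * R ^ 2 + R))) := by
    nlinarith
  rw [h3]
  ring

/-- the lower bound of `h(K) - γ log det` -/
theorem star {h : ℝ → ℝ} {c γ y0 h0 l0 : ℝ} (hc : 0 ≤ c) (hγ : 0 ≤ γ) (hy0 : 0 ≤ y0)
    (hl0 : 0 < l0)
    (hT : ConvexOn ℝ (Ici 0) fun y => h (Kc c y) - γ * Real.log (1 + 2 * c * y))
    (hd : HasDerivWithinAt h h0 (Ici 1) (Kc c y0))
    (hs : Kc c y0 * h0 = 2 * γ * c * xx c y0) {A : M2} (hA : 0 < A.det) :
    (h (Kc c y0) - γ * Real.log (l0 ^ 2 * (1 + 2 * c * y0)) - 4 * γ * c * y0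
        + γ * (1 + 2 * c * y0)) + 4 * γ * c / l0 * ‖(cab A).2‖ - γ / l0 ^ 2 * A.det
      ≤ h (‖A‖ ^ 2 / A.det) - γ * Real.log A.det := by
  obtain ⟨y, hy, hyA⟩ := param_ex hc hA
  obtain ⟨l, hl, e1, e2, e3⟩ := param hc hA hy hyA
  have h1 := T_supp hc hy0 hT hd hs hy
  have hd1 := dpos hc hy
  have hd0 := dpos hc hy0
  rw [e3, e2, e1, Real.log_mul (by positivity) hd1.ne', Real.log_mul (by positivity) hd0.ne',
    Real.log_pow, Real.log_pow]
  set μ : ℝ := l / l0 with hμ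
  have hμ0 : 0 < μ := div_pos hl hl0
  have hlog : Real.log l = Real.log μ + Real.log l0 := by
    rw [hμ, Real.log_div hl.ne' hl0.ne']
    ring
  have hlm : Real.log μ ≤ μ - 1 := Real.log_le_sub_one_of_pos hμ0
  have h2 : 0 ≤ μ ^ 2 - 1 - 2 * Real.log μ := by nlinarith [sq_nonneg (μ - 1)]
  have h3 : 0 ≤ 2 * c * y * (1 - μ) ^ 2 := by positivity
  have h4 : 4 * γ * c / l0 * (l * y) = 4 * γ * c * μ * y := by
    rw [hμ]
    ring
  have h5 : γ / l0 ^ 2 * (l ^ 2 * (1 + 2 * c * y)) = γ * μ ^ 2 * (1 + 2 * c * y) := by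
    rw [hμ]
    ring
  rw [h4, h5, hlog]
  have h6 : 0 ≤ γ * (2 * c * y * (1 - μ) ^ 2 + (μ ^ 2 - 1 - 2 * Real.log μ)) :=
    mul_nonneg hγ (add_nonneg h3 h2)
  push_cast
  nlinarith

end Pool.Agent.TH594.MG
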