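import Pool.Agent.TH594.MG.B2

/-! Case B: conclusion. -/

set_option autoImplicit false

namespace Pool.Agent.TH594.MG

open MeasureTheory Set Filter Topology Pool.Agent.W360.MQ
open scoped ComplexConjugate Matrix.Norms.L2Operator

lemma f_conv {f : ℝ → ℝ} (hf : ContDiffOn ℝ 2 f (Ioi 0)) (b : ℝ)
    (hb : ∀ z, 0 < z → -(z ^ 2 * deriv (deriv f) z) ≤ b) :
    ConvexOn ℝ (Ioi 0) fun z => f z - b * Real.log z := by
  have hd : ∀ z, 0 < z → HasDerivAt (fun z => f z - b * Real.log z)
      (deriv f z - b * z⁻¹) z := fun z hz =>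
    (f_der hf hz).1.sub ((Real.hasDerivAt_log hz.ne').const_mul b)
  have hdd : ∀ z, 0 < z → HasDerivAt (deriv fun z => f z - b * Real.log z)
      (deriv (deriv f) z - b * (-(z ^ 2)⁻¹)) z := by
    intro z hz
    have h3 : HasDerivAt (fun z => deriv f z - b * z⁻¹)
        (deriv (deriv f) z - b * (-(z ^ 2)⁻¹)) z :=
      (f_der hf hz).2.sub ((hasDerivAt_inv hz.ne').const_mul b)
    refine h3.congr_of_eventuallyEq ?_
    filter_upwards [isOpen_Ioi.mem_nhds hz] with y hy
    exact (hd y hy).deriv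
  refine convexOn_of_deriv2_nonneg (convex_Ioi 0) ?_ ?_ ?_ ?_
  · intro z hz
    exact (hd z hz).continuousAt.continuousWithinAt
  · rw [interior_Ioi]
    intro z hz
    exact (hd z hz).differentiableAt.differentiableWithinAt
  · rw [interior_Ioi]
    intro z hz
    exact (hdd z hz).differentiableAt.differentiableWithinAt
  · rw [interior_Ioi]
    intro z hz
    have hz0 : (0 : ℝ) < z := hz
    show 0 ≤ deriv (deriv fun z => f z - b * Real.log z) z
    rw [(hdd z hz).deriv]
    have h4 := hb z hz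
    have h5 : deriv (deriv f) z - b * (-(z ^ 2)⁻¹)
        = (z ^ 2 * deriv (deriv f) z + b) / z ^ 2 := by
      field_simp
      ring
    rw [h5]
    exact div_nonneg (by linarith) (sq_nonneg _)

lemma h_conv {h : ℝ → ℝ} (hh : ContDiffOn ℝ 2 h (Ici 1)) (b : ℝ)
    (hb : ∀ k, 1 < k → 0 ≤ k ^ 2 * deriv (deriv h) k + b) :
    ConvexOn ℝ (Ici 1) fun k => h k - b * Real.log k := by
  have hd : ∀ k, 1 < k → HasDerivAt (fun k => h k - b * Real.log k)
      (deriv h k - b * k⁻¹) k := fun k hk =>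
    (h_der hh hk).1.sub ((Real.hasDerivAt_log (by linarith)).const_mul b)
  have hdd : ∀ k, 1 < k → HasDerivAt (deriv fun k => h k - b * Real.log k)
      (deriv (deriv h) k - b * (-(k ^ 2)⁻¹)) k := by
    intro k hk
    have hk0 : k ≠ 0 := by linarith
    have h3 : HasDerivAt (fun k => deriv h k - b * k⁻¹)
        (deriv (deriv h) k - b * (-(k ^ 2)⁻¹)) k :=
      (h_der hh hk).2.sub ((hasDerivAt_inv hk0).const_mul b)
    refine h3.congr_of_eventuallyEq ?_
    filter_upwards [isOpen_Ioi.mem_nhds hk] with y hy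
    exact (hd y hy).deriv
  refine convexOn_of_deriv2_nonneg (convex_Ici 1) ?_ ?_ ?_ ?_
  · refine hh.continuousOn.sub (continuousOn_const.mul ?_)
    exact Real.continuousOn_log.mono fun x hx => by
      have : (1 : ℝ) ≤ x := hx
      simp only [mem_compl_iff, mem_singleton_iff]
      linarith
  · rw [interior_Ici]
    intro z hz
    exact (hd z hz).differentiableAt.differentiableWithinAt
  · rw [interior_Ici]
    intro z hz
    exact (hdd z hz).differentiableAt.differentiableWithinAt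
  · rw [interior_Ici]
    intro k hk
    have hk1 : (1 : ℝ) < k := hk
    have hk0 : k ≠ 0 := by linarith
    show 0 ≤ deriv (deriv fun k => h k - b * Real.log k) k
    rw [(hdd k hk).deriv]
    have h4 := hb k hk
    have h5 : deriv (deriv h) k - b * (-(k ^ 2)⁻¹)
        = (k ^ 2 * deriv (deriv h) k + b) / k ^ 2 := by
      field_simp
      ring
    rw [h5]
    exact div_nonneg h4 (sq_nonneg _)

/-- the isochoric part is nondecreasing -/
lemma h_mono {h f : ℝ → ℝ} {W : M2 → ℝ}
    (hW : ∀ A : M2, 0 < A.det → W A = h (‖A‖ ^ 2 / A.det) + f A.det)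
    (hR : RankOneConvexPos W) : MonotoneOn h (Ici 1) := by
  intro k0 hk0 k1 hk1 hle
  have h01 : (1 : ℝ) ≤ k0 := hk0
  have h11 : (1 : ℝ) ≤ k1 := hk1
  rcases eq_or_lt_of_le hle with he | hlt
  · rw [he]
  have p0 : 0 < k0 := by linarith
  have p1' : 0 < k1 := by linarith
  set a : ℝ := Real.sqrt k0 with ha
  have ha0 : 0 < a := Real.sqrt_pos.2 p0
  have ha2 : a ^ 2 = k0 := Real.sq_sqrt p0.le
  have ha1 : 1 ≤ a := by
    rw [ha]
    exact Real.one_le_sqrt.2 h01
  set b : ℝ := Real.sqrt k1 with hb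
  have hb0 : 0 < b := Real.sqrt_pos.2 p1'
  have hb2 : b ^ 2 = k1 := Real.sq_sqrt p1'.le
  have hb1 : 1 ≤ b := by
    rw [hb]
    exact Real.one_le_sqrt.2 h11
  have hpos : 0 < k1 + 1 / k1 - (k0 + 1 / k0) := by
    have : k1 + 1 / k1 - (k0 + 1 / k0) = (k1 - k0) * (k0 * k1 - 1) / (k0 * k1) := by
      field_simp
      ring
    rw [this]
    have : 1 < k0 * k1 := by nlinarith
    exact div_pos (mul_pos (by linarith) (by linarith)) (by positivity)
  set τ : ℝ := Real.sqrt (k1 + 1 / k1 - (k0 + 1 / k0)) with hτ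
  have hτ0 : 0 < τ := Real.sqrt_pos.2 hpos
  have hτ2 : τ ^ 2 = k1 + 1 / k1 - (k0 + 1 / k0) := Real.sq_sqrt hpos.le
  have hai : 1 / k0 = (1 / a) ^ 2 := by rw [← ha2]; field_simp
  have hbi : 1 / k1 = (1 / b) ^ 2 := by rw [← hb2]; field_simp
  have hib : 1 / b ≤ b := by
    rw [div_le_iff₀ hb0]
    nlinarith
  -- the value at the sheared matrices
  have hval : ∀ ε : ℝ, ε ^ 2 = τ ^ 2 → W !![a, ε; 0, 1 / a] = h k1 + f 1 := by
    intro ε hε
    have hdet : (!![a, ε; 0, 1 / a] : M2).det = 1 := by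
      rw [Matrix.det_fin_two]
      simp
      field_simp
    have n1 : ‖(cab !![a, ε; 0, 1 / a]).1‖ = (b + 1 / b) / 2 := by
      have e : (cab !![a, ε; 0, 1 / a]).1
          = (((a + 1 / a) / 2 : ℝ) : ℂ) + ((-ε / 2 : ℝ) : ℂ) * Complex.I := by
        unfold cab
        simp
        ring
      rw [e, Complex.norm_add_mul_I, Real.sqrt_eq_iff_mul_self_eq (by positivity) (by positivity)]
      have q1 : a * (1 / a) = 1 := by field_simp
      have q2 : b * (1 / b) = 1 := by field_simp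
      nlinarith
    have n2 : ‖(cab !![a, ε; 0, 1 / a]).2‖ = (b - 1 / b) / 2 := by
      have e : (cab !![a, ε; 0, 1 / a]).2
          = (((a - 1 / a) / 2 : ℝ) : ℂ) + ((ε / 2 : ℝ) : ℂ) * Complex.I := by
        unfold cab
        simp
        ring
      rw [e, Complex.norm_add_mul_I,
        Real.sqrt_eq_iff_mul_self_eq (by positivity) (by linarith)]
      have q1 : a * (1 / a) = 1 := by field_simp
      have q2 : b * (1 / b) = 1 := by field_simp
      nlinarith
    rw [hW _ (by rw [hdet]; norm_num), hdet, (opn _).1, n1, n2, div_one]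
    have : (b + 1 / b) / 2 + (b - 1 / b) / 2 = b := by ring
    rw [this, hb2]
  have hval0 : W !![a, 0; 0, 1 / a] = h k0 + f 1 := by
    obtain ⟨q1, q2⟩ := diag_norm a (1 / a) ha0 (by positivity)
    have q3 : a * (1 / a) = 1 := by field_simp
    have q4 : max a (1 / a) = a := by
      refine max_eq_left ?_
      rw [div_le_iff₀ ha0]
      nlinarith
    rw [hW _ (by rw [q2, q3]; norm_num), q1, q2, q3, q4, ha2, div_one]
  set H : M2 := !![0, 2 * τ; 0, 0] with hH
  have e1 : (!![a, -τ; 0, 1 / a] : M2) + H = !![a, τ; 0, 1 / a] := by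
    rw [hH]
    ext i j
    fin_cases i <;> fin_cases j <;> simp
    ring
  have hrk : H.rank = 1 := by
    have e2 : H = Matrix.vecMulVec ![2 * τ, 0] ![0, 1] := by
      rw [hH]
      ext i j
      fin_cases i <;> fin_cases j <;> simp [Matrix.vecMulVec]
    refine le_antisymm ?_ ?_
    · rw [e2]
      exact Matrix.rank_vecMulVec_le _ _
    · rw [Nat.one_le_iff_ne_zero]
      intro h0
      rw [Matrix.rank, Submodule.finrank_eq_zero, LinearMap.range_eq_bot] at h0
      have h1 : H.mulVecLin (Pi.single 1 1) 0 = 0 := by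
        rw [h0]
        rfl
      rw [hH] at h1
      simp [Matrix.mulVecLin_apply, Matrix.mulVec, dotProduct, Fin.sum_univ_two] at h1
      exact hτ0.ne' h1
  have hdet1 : ∀ ε : ℝ, (!![a, ε; 0, 1 / a] : M2).det = 1 := by
    intro ε
    rw [Matrix.det_fin_two]
    simp
    field_simp
  have h3 := hR !![a, -τ; 0, 1 / a] H hrk (by rw [hdet1]; norm_num)
    (by rw [e1, hdet1]; norm_num) (1 / 2) (by norm_num) (by norm_num)
  have e3 : (1 - (1 / 2 : ℝ)) • (!![a, -τ; 0, 1 / a] : M2) + (1 / 2 : ℝ) • !![a, τ; 0, 1 / a]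
      = !![a, 0; 0, 1 / a] := by
    ext i j
    fin_cases i <;> fin_cases j <;> simp <;> ring
  rw [e1, e3, hval (-τ) (by ring), hval τ rfl, hval0] at h3
  linarith

/-- the quantity `|b|² / det` in terms of the ratio -/
lemma b_ratio {A : M2} (hA : 0 < A.det) :
    ‖(cab A).2‖ ^ 2 * (4 * (‖A‖ ^ 2 / A.det)) = (‖A‖ ^ 2 / A.det - 1) ^ 2 * A.det := by
  have h1 := (opn A).1
  have h2 := (opn A).2
  have hx : ‖(cab A).1‖ = ‖A‖ - ‖(cab A).2‖ := by linarith
  have h3 : A.det = ‖A‖ ^ 2 - 2 * ‖A‖ * ‖(cab A).2‖ := by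
    rw [h2, hx]
    ring
  have hA' : A.det ≠ 0 := hA.ne'
  field_simp
  have h4 : ‖A‖ ^ 2 - A.det = 2 * ‖A‖ * ‖(cab A).2‖ := by linarith
  rw [h4]
  ring

/-- support of `K - 2 log σ₂` -/
lemma V_supp {A : M2} (hA : 0 < A.det) {t0 : ℝ} (ht0 : 0 < t0) :
    2 - 2 * Real.log t0 + 4 / t0 * ‖(cab A).2‖ - A.det / t0 ^ 2
      ≤ ‖A‖ ^ 2 / A.det - 2 * Real.log (A.det / ‖A‖) := by
  have hn := norm_pos' A hA
  set s : ℝ := ‖A‖ with hs
  set t : ℝ := A.det / s with ht
  have ht1 : 0 < t := div_pos hA hn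
  have hd : A.det = s * t := by
    rw [ht]
    field_simp
  have h1 := (opn A).1
  have h2 := (opn A).2
  have hb : ‖(cab A).2‖ = (s - t) / 2 := by
    have hx : ‖(cab A).1‖ = s - ‖(cab A).2‖ := by rw [hs]; linarith
    have h3 : A.det = s ^ 2 - 2 * s * ‖(cab A).2‖ := by
      rw [h2, hx]
      ring
    rw [hd] at h3
    have h4 : s * (t - s + 2 * ‖(cab A).2‖) = 0 := by linarith
    rcases mul_eq_zero.1 h4 with h5 | h5
    · exact absurd h5 hn.ne'
    · linarith
  rw [hb, hd]
  set u : ℝ := t / t0 with hu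
  have hu0 : 0 < u := div_pos ht1 ht0
  have hlog : Real.log t = Real.log u + Real.log t0 := by
    rw [hu, Real.log_div ht1.ne' ht0.ne']
    ring
  have hlm : Real.log u ≤ u - 1 := Real.log_le_sub_one_of_pos hu0
  rw [hlog]
  have e : s ^ 2 / (s * t) - 2 * (Real.log u + Real.log t0)
      - (2 - 2 * Real.log t0 + 4 / t0 * ((s - t) / 2) - s * t / t0 ^ 2)
      = (s / t) * (1 - u) ^ 2 + 2 * (u - 1 - Real.log u) := by
    rw [hu]
    field_simp
    ring
  have h6 : 0 ≤ (s / t) * (1 - u) ^ 2 + 2 * (u - 1 - Real.log u) := by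
    have : 0 ≤ (s / t) * (1 - u) ^ 2 := by positivity
    linarith
  linarith

/-- **Case B**: `inf z² f''(z) = γ > 0`. -/
theorem caseB {h f : ℝ → ℝ} {W : M2 → ℝ} (hh : ContDiffOn ℝ 2 h (Ici 1))
    (hf : ContDiffOn ℝ 2 f (Ioi 0))
    (hW : ∀ A : M2, 0 < A.det → W A = h (‖A‖ ^ 2 / A.det) + f A.det)
    (hR : RankOneConvexPos W) {γ : ℝ} (hγ : 0 < γ)
    (hγ1 : ∀ z, 0 < z → γ ≤ z ^ 2 * deriv (deriv f) z)
    (hγ2 : ∀ ε : ℝ, 0 < ε → ∃ z, 0 < z ∧ z ^ 2 * deriv (deriv f) z < γ + ε)
    {F₀ : M2} {Ω : Set V2} {ϑ v : V2 → V2} {K K' : NNReal} (hH : Hom F₀ Ω ϑ v K K') :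
    IntegrableOn (fun x => W (F₀ + mx ϑ x)) Ω ∧
      W F₀ * (volume Ω).toReal ≤ ∫ x in Ω, W (F₀ + mx ϑ x) := by
  have hF := hH.det
  have hφ := f_conv hf (-γ) fun z hz => by
    have := hγ1 z hz
    linarith
  obtain ⟨n, hn⟩ := supp_f hf hφ hF
  obtain ⟨al, hal, hal2⟩ := exists_unit (cab F₀).1
  obtain ⟨be, hbe, hbe2⟩ := exists_unit (cab F₀).2
  set D0 : ℝ := F₀.det with hD0
  set s0 : ℝ := ‖F₀‖ with hs0
  have hs0p : 0 < s0 := norm_pos' F₀ hF
  set k0 : ℝ := s0 ^ 2 / D0 with hk0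
  have hk01 : 1 ≤ k0 := K_ge F₀ hF
  have hk0p : 0 < k0 := by linarith
  have hdw : HasDerivWithinAt h (derivWithin h (Ici 1) k0) (Ici 1) k0 :=
    ((hh.differentiableOn (by norm_num)) k0 hk01).hasDerivWithinAt
  set h0 : ℝ := derivWithin h (Ici 1) k0 with hh0
  have hh0n : 0 ≤ h0 := (h_mono hW hR).derivWithin_nonneg
  set p : ℝ := k0 * h0 / γ with hp
  have hp0 : 0 ≤ p := by positivity
  rcases le_or_gt p (k0 + 1) with hple | hpgt
  · -- the line through the position of `F₀`
    have hk1 : 0 < k0 + 1 := by linarith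
    have hw : 0 < 1 + p * (k0 - 1) / (k0 + 1) := by
      have : 0 ≤ p * (k0 - 1) / (k0 + 1) :=
        div_nonneg (mul_nonneg hp0 (by linarith)) hk1.le
      linarith
    set t0 : ℝ := Real.sqrt ((1 + p * (k0 - 1) / (k0 + 1)) / k0) with ht0
    have ht0p : 0 < t0 := Real.sqrt_pos.2 (by positivity)
    have ht02 : t0 ^ 2 = (1 + p * (k0 - 1) / (k0 + 1)) / k0 := Real.sq_sqrt (by positivity)
    set c : ℝ := p / ((k0 + 1) * t0) with hc
    have hc0 : 0 ≤ c := by positivity
    have hc1 : c ≤ 1 := by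
      rw [hc, div_le_one (by positivity)]
      refine le_of_sq_le_sq ?_ (by positivity)
      rw [mul_pow, ht02]
      have : (k0 + 1) ^ 2 * ((1 + p * (k0 - 1) / (k0 + 1)) / k0)
          = ((k0 + 1) ^ 2 + p * (k0 - 1) * (k0 + 1)) / k0 := by
        field_simp
      rw [this, le_div_iff₀ hk0p]
      nlinarith [mul_nonneg (sub_nonneg.2 hple) (by positivity : 0 ≤ k0 * p + (k0 + 1))]
    set y0 : ℝ := (k0 - 1) * t0 / 2 with hy0
    have hy0n : 0 ≤ y0 := by
      have : 0 ≤ k0 - 1 := by linarith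
      positivity
    have hd0 : 1 + 2 * c * y0 = k0 * t0 ^ 2 := by
      rw [ht02, hc, hy0]
      field_simp
    have hx0 : xx c y0 = (k0 + 1) * t0 / 2 := by
      unfold xx
      rw [Real.sqrt_eq_iff_mul_self_eq (rpos hc0 hy0n).le (by positivity)]
      have : y0 ^ 2 + 2 * c * y0 + 1 = y0 ^ 2 + (1 + 2 * c * y0) := by ring
      rw [this, hd0, hy0]
      ring
    have hKc : Kc c y0 = k0 := by
      unfold Kc
      rw [hx0, hd0, hy0]
      field_simp
      ring
    have hpos0 : y0 ^ 2 * F₀.det = ‖(cab F₀).2‖ ^ 2 * (1 + 2 * c * y0) := by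
      have h1 := b_ratio hF
      rw [← hD0, ← hs0, ← hk0] at h1
      rw [hd0, hy0, ← hD0]
      have h2 : ‖(cab F₀).2‖ ^ 2 * (k0 * t0 ^ 2)
          = (‖(cab F₀).2‖ ^ 2 * (4 * k0)) * (t0 ^ 2 / 4) := by ring
      rw [h2, h1]
      ring
    obtain ⟨l0, hl0, e1, e2, e3⟩ := param hc0 hF hy0n hpos0
    have hT := T_conv hh hf hc0 hγ2 fun r hr => line_convex hW hR hc0 hc1 hr
    have hdw' : HasDerivWithinAt h h0 (Ici 1) (Kc c y0) := by
      rw [hKc]
      exact hdw
    have hslope : Kc c y0 * h0 = 2 * γ * c * xx c y0 := by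
      rw [hKc, hx0, hc, hp]
      field_simp
    refine fin_of_supp (c := 0)
      (C0 := (h (Kc c y0) - γ * Real.log (l0 ^ 2 * (1 + 2 * c * y0)) - 4 * γ * c * y0
        + γ * (1 + 2 * c * y0)) + (f D0 - -γ * Real.log D0) - n * D0)
      (lam := 4 * γ * c / l0) (eta := n - γ / l0 ^ 2) (al := 0) (be := be)
      hh.continuousOn hf.continuousOn hW hH le_rfl ?_ ?_
    · intro A hA
      rw [hW A hA]
      have h1 := star hc0 hγ.le hy0n hl0 hT hdw' hslope hA
      have h2 := hn _ hA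
      have h3 := re_le be (cab A).2 hbe
      have h4 : 4 * γ * c / l0 * (conj be * (cab A).2).re ≤ 4 * γ * c / l0 * ‖(cab A).2‖ :=
        mul_le_mul_of_nonneg_left h3 (by positivity)
      simp only [map_zero, zero_mul, Complex.zero_re, zero_add]
      nlinarith
    · rw [hW F₀ hF, hbe2, e2, ← hD0, ← hs0, ← hk0, hKc, ← e1, ← hD0]
      simp only [map_zero, zero_mul, Complex.zero_re, zero_add]
      have h5 : D0 / l0 ^ 2 = 1 + 2 * c * y0 := by
        rw [hD0, e1]
        field_simp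
      have h6 : (n - γ / l0 ^ 2) * D0 = n * D0 - γ * (D0 / l0 ^ 2) := by ring
      have h7 : 4 * γ * c / l0 * (l0 * y0) = 4 * γ * c * y0 := by
        field_simp
      rw [h6, h5, h7]
      ring
  · -- the steep case
    set C : ℝ := h0 - γ / k0 with hC
    have hCγ : γ ≤ C := by
      rw [hp, lt_div_iff₀ hγ] at hpgt
      rw [hC, le_sub_iff_add_le, ← sub_nonneg]
      have : h0 - (γ + γ / k0) = (k0 * h0 - (k0 + 1) * γ) / k0 := by
        field_simp
      rw [this]
      exact div_nonneg (by linarith) hk0p.le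
    have hg : ConvexOn ℝ (Ici 1) fun k => h k - γ * Real.log k := by
      refine h_conv hh γ fun k hk => ?_
      by_contra hneg
      push Not at hneg
      obtain ⟨z, hz, hzz⟩ := hγ2 (-(k ^ 2 * deriv (deriv h) k + γ)) (by linarith)
      have := second hh hf (dia_convex hW hR) hk hz
      linarith
    have hgd : HasDerivWithinAt (fun k => h k - γ * Real.log k) C (Ici 1) k0 := by
      have := hdw.sub (((Real.hasDerivAt_log hk0p.ne').const_mul γ).hasDerivWithinAt
        (s := Ici 1))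
      refine this.congr_deriv ?_
      rw [hC]
      ring
    have hsg : ∀ k, 1 ≤ k → h k0 - γ * Real.log k0 + C * (k - k0) ≤ h k - γ * Real.log k := by
      intro k hk
      rcases lt_trichotomy k k0 with hlt' | heq | hgt
      · have h2 := hg.slope_le_of_hasDerivWithinAt (mem_Ici.2 hk) (mem_Ici.2 hk01) hlt' hgd
        rw [slope_def_field, div_le_iff₀ (by linarith)] at h2
        linarith
      · subst heq
        simp
      · have h2 := hg.le_slope_of_hasDerivWithinAt (mem_Ici.2 hk01) (mem_Ici.2 hk) hgt hgd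
        rw [slope_def_field, le_div_iff₀ (by linarith)] at h2
        linarith
    set t0 : ℝ := D0 / s0 with ht0
    have ht0p : 0 < t0 := div_pos hF hs0p
    set m1 : ℝ := (C - γ) * (2 * (s0 / D0)) with hm1
    have hm10 : 0 ≤ m1 := mul_nonneg (by linarith) (by positivity)
    set m2 : ℝ := m1 + γ * (4 / t0) with hm2
    have hre : ∀ (r : ℝ) (w z : ℂ), (conj ((r : ℂ) * w) * z).re = r * (conj w * z).re := by
      intro r w z
      rw [map_mul, Complex.conj_ofReal, mul_assoc, Complex.re_ofReal_mul]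
    refine fin_of_supp (c := 0)
      (C0 := (h k0 - γ * Real.log k0 - C * k0) + γ * (2 - 2 * Real.log t0)
        + (f D0 - -γ * Real.log D0) - n * D0)
      (lam := 1) (eta := n - (C - γ) * (s0 ^ 2 / D0 ^ 2) - γ / t0 ^ 2)
      (al := (m1 : ℂ) * al) (be := (m2 : ℂ) * be)
      hh.continuousOn hf.continuousOn hW hH le_rfl ?_ ?_
    · intro A hA
      rw [hW A hA, hre, hre]
      have hnA := norm_pos' A hA
      have h1 := hsg _ (K_ge A hA)
      have h2 := hn _ hA
      have h3 : (conj al * (cab A).1).re + (conj be * (cab A).2).re ≤ ‖A‖ := by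
        rw [(opn A).1]
        exact add_le_add (re_le _ _ hal) (re_le _ _ hbe)
      have h4 := mul_le_mul_of_nonneg_left (K_supp hA hF hs0p.le h3) (sub_nonneg.2 hCγ)
      have h5 := mul_le_mul_of_nonneg_left (V_supp hA ht0p) hγ.le
      have h6 : γ * (4 / t0) * (conj be * (cab A).2).re ≤ γ * (4 / t0) * ‖(cab A).2‖ :=
        mul_le_mul_of_nonneg_left (re_le be (cab A).2 hbe) (by positivity)
      have hl1 : Real.log (A.det / ‖A‖) = Real.log A.det - Real.log ‖A‖ :=
        Real.log_div hA.ne' hnA.ne'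
      have hl2 : Real.log (‖A‖ ^ 2 / A.det) = 2 * Real.log ‖A‖ - Real.log A.det := by
        rw [Real.log_div (pow_ne_zero 2 hnA.ne') hA.ne', Real.log_pow]
        push_cast
        ring
      rw [hl1] at h5
      rw [hl2] at h1
      rw [hm2]
      have h7 : m1 * ((conj al * (cab A).1).re + (conj be * (cab A).2).re)
          = (C - γ) * (2 * (s0 / D0) * ((conj al * (cab A).1).re + (conj be * (cab A).2).re)) := by
        rw [hm1]
        ring
      have h8 : γ / t0 ^ 2 * A.det = γ * (A.det / t0 ^ 2) := by ring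
      nlinarith
    · rw [hW F₀ hF, hre, hre, hal2, hbe2, ← hD0, ← hs0, ← hk0]
      have hb : ‖(cab F₀).1‖ = s0 - ‖(cab F₀).2‖ := by
        rw [hs0, (opn F₀).1]
        ring
      have hb2 : ‖(cab F₀).2‖ = (s0 - t0) / 2 := by
        have h3 : D0 = s0 ^ 2 - 2 * s0 * ‖(cab F₀).2‖ := by
          rw [hD0, (opn F₀).2, hb]
          ring
        have h4 : t0 = s0 - 2 * ‖(cab F₀).2‖ := by
          rw [ht0, h3]
          field_simp
        rw [h4]
        ring
      have hD : D0 = s0 * t0 := by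
        rw [ht0]
        field_simp
      have hk : k0 = s0 / t0 := by
        rw [hk0, hD]
        field_simp
      have hl1 : Real.log k0 = Real.log s0 - Real.log t0 := by
        rw [hk, Real.log_div hs0p.ne' ht0p.ne']
      have hl2 : Real.log D0 = Real.log s0 + Real.log t0 := by
        rw [hD, Real.log_mul hs0p.ne' ht0p.ne']
      rw [hb, hb2, hl1, hl2, hm2, hm1, hk, hD]
      field_simp
      ring

end Pool.Agent.TH594.MG
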