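import Pool.Agent.TH594.MG.Shield

/-! Integrability of continuous functions of the Jacobian matrix. -/

set_option autoImplicit false

namespace Pool.Agent.TH594.MG

open MeasureTheory Set Filter Topology Pool.Agent.W360.MQ

variable {F₀ : M2} {Ω : Set V2} {ϑ v : V2 → V2} {K K' : NNReal}

lemma entry_bd (L : V2 →L[ℝ] V2) (i j : Fin 2) :
    |(LinearMap.toMatrix' (L : V2 →ₗ[ℝ] V2)) i j| ≤ ‖L‖ := by
  rw [LinearMap.toMatrix'_apply]
  have h1 : ‖L (Pi.single j 1)‖ ≤ ‖L‖ * ‖(Pi.single j (1 : ℝ) : V2)‖ := L.le_opNorm _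
  have h2 : ‖(Pi.single j (1 : ℝ) : V2)‖ = 1 := by
    rw [Pi.norm_single, norm_one]
  rw [h2, mul_one] at h1
  refine le_trans ?_ h1
  exact norm_le_pi_norm (L (Pi.single j 1)) i

lemma det_bd {A : M2} {C : ℝ} (h : ∀ i j, |A i j| ≤ C) : |A.det| ≤ 2 * C ^ 2 := by
  rw [Matrix.det_fin_two]
  have hC : 0 ≤ C := (abs_nonneg _).trans (h 0 0)
  have h1 : |A 0 0 * A 1 1| ≤ C * C := by
    rw [abs_mul]
    exact mul_le_mul (h 0 0) (h 1 1) (abs_nonneg _) hC
  have h2 : |A 0 1 * A 1 0| ≤ C * C := by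
    rw [abs_mul]
    exact mul_le_mul (h 0 1) (h 1 0) (abs_nonneg _) hC
  calc |A 0 0 * A 1 1 - A 0 1 * A 1 0| ≤ |A 0 0 * A 1 1| + |A 0 1 * A 1 0| := abs_sub _ _
    _ ≤ 2 * C ^ 2 := by nlinarith

/-- lower bound of the Jacobian -/
lemma det_low (h : Hom F₀ Ω ϑ v K K') {x : V2} (hx : DifferentiableAt ℝ ϑ x)
    (hd : 0 < (F₀ + mx ϑ x).det) : 1 / (2 * (K' : ℝ) ^ 2 + 1) ≤ (F₀ + mx ϑ x).det := by
  obtain ⟨h1, h2⟩ := inv_der h hx hd
  have h3 : ∀ i j, |(mx v (um F₀ ϑ x)) i j| ≤ K' := fun i j =>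
    (entry_bd _ i j).trans (norm_fderiv_le_of_lipschitz ℝ h.lipv)
  have h4 := det_bd h3
  rw [h2, Matrix.det_nonsing_inv, Ring.inverse_eq_inv', abs_of_pos (inv_pos.2 hd)] at h4
  rw [div_le_iff₀ (by positivity)]
  have h5 : (F₀ + mx ϑ x).det * (F₀ + mx ϑ x).det⁻¹ = 1 := mul_inv_cancel₀ hd.ne'
  nlinarith

/-- the compact set of matrices -/
def KK (C m : ℝ) : Set M2 := {A | (∀ i j, |A i j| ≤ C) ∧ m ≤ A.det}

lemma KK_compact (C m : ℝ) : IsCompact (KK C m) := by
  have hc : IsCompact (Set.pi univ fun _ : Fin 2 => Set.pi univ fun _ : Fin 2 => Icc (-C) C) :=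
    isCompact_univ_pi fun _ => isCompact_univ_pi fun _ => isCompact_Icc
  have hcl : IsClosed (KK C m) := by
    have e : KK C m = (⋂ i : Fin 2, ⋂ j : Fin 2, {A : M2 | |A i j| ≤ C}) ∩ {A | m ≤ A.det} := by
      ext A
      simp [KK]
    rw [e]
    refine IsClosed.inter ?_ ?_
    · refine isClosed_iInter fun i => isClosed_iInter fun j => ?_
      exact isClosed_le (continuous_id.matrix_elem i j).abs continuous_const
    · exact isClosed_le continuous_const continuous_id.matrix_det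
  refine hc.of_isClosed_subset hcl ?_
  intro A hA i _ j _
  exact abs_le.1 (hA.1 i j)

theorem integ (h : Hom F₀ Ω ϑ v K K') {Φ : M2 → ℝ} (hΦ : ContinuousOn Φ {A | 0 < A.det}) :
    IntegrableOn (fun x => Φ (F₀ + mx ϑ x)) Ω := by
  classical
  set m : ℝ := 1 / (2 * (K' : ℝ) ^ 2 + 1) with hm
  have hm0 : 0 < m := by positivity
  obtain ⟨c0, hc0⟩ : ∃ c0 : ℝ, ∀ i j, |F₀ i j| ≤ c0 :=
    ⟨∑ i, ∑ j, |F₀ i j|, fun i j => by
      refine (Finset.single_le_sum (f := fun j => |F₀ i j|) (fun j _ => abs_nonneg _)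
        (Finset.mem_univ j)).trans ?_
      exact Finset.single_le_sum (f := fun i => ∑ j, |F₀ i j|)
        (fun i _ => Finset.sum_nonneg fun j _ => abs_nonneg _) (Finset.mem_univ i)⟩
  set C : ℝ := c0 + K with hC
  have hsub : KK C m ⊆ {A | 0 < A.det} := fun A hA => lt_of_lt_of_le hm0 hA.2
  obtain ⟨B, hB⟩ := (KK_compact C m).exists_bound_of_continuousOn (hΦ.mono hsub)
  have hmem : ∀ᵐ x ∂(volume.restrict Ω), F₀ + mx ϑ x ∈ KK C m := by
    refine ae_restrict_of_ae ?_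
    filter_upwards [h.lip.ae_differentiableAt (μ := (volume : Measure V2)), h.pos] with x hx hd
    refine ⟨fun i j => ?_, det_low h hx hd⟩
    have h1 : |(mx ϑ x) i j| ≤ K :=
      (entry_bd _ i j).trans (norm_fderiv_le_of_lipschitz ℝ h.lip)
    rw [Matrix.add_apply]
    exact (abs_add_le _ _).trans (add_le_add (hc0 i j) h1)
  set T : (V2 →L[ℝ] V2) → M2 := fun L => F₀ + LinearMap.toMatrix' (L : V2 →ₗ[ℝ] V2) with hT
  have hTc : Continuous T := T_cont F₀
  set G : Set (V2 →L[ℝ] V2) := T ⁻¹' {A | 0 < A.det} with hG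
  have hGo : IsOpen G := by
    have : IsOpen {A : M2 | 0 < A.det} := isOpen_lt continuous_const continuous_id.matrix_det
    exact this.preimage hTc
  have hmeas : Measurable (G.piecewise (fun L => Φ (T L)) fun _ => (0 : ℝ)) := by
    refine ContinuousOn.measurable_piecewise ?_ continuousOn_const hGo.measurableSet
    exact hΦ.comp hTc.continuousOn fun L hL => hL
  have haes : AEStronglyMeasurable (fun x => Φ (F₀ + mx ϑ x)) (volume.restrict Ω) := by
    refine AEStronglyMeasurable.congr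
      ((hmeas.comp (measurable_fderiv ℝ ϑ)).aestronglyMeasurable) ?_
    filter_upwards [hmem] with x hx
    have hx' : fderiv ℝ ϑ x ∈ G := hsub hx
    show (G.piecewise (fun L => Φ (T L)) fun _ => (0 : ℝ)) (fderiv ℝ ϑ x) = _
    rw [Set.piecewise_eq_of_mem _ _ _ hx']
    rfl
  refine IntegrableOn.of_bound h.bdd.measure_lt_top haes B ?_
  filter_upwards [hmem] with x hx
  exact hB _ hx

end Pool.Agent.TH594.MG
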