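import Pool.Agent.TH594.MG.Had
import Pool.Agent.TH594.MG.Integ

/-! A `C¹` deformation with positive Jacobian is a bi-Lipschitz homeomorphism. -/

set_option autoImplicit false

namespace Pool.Agent.TH594.MG

open MeasureTheory Set Filter Topology Pool.Agent.W360.MQ

theorem hom_of_c1 {F₀ : M2} {Ω : Set V2} {ϑ : V2 → V2} (hF : 0 < F₀.det) (ho : IsOpen Ω)
    (hb : Bornology.IsBounded Ω) (hϑ : ContDiff ℝ 1 ϑ) (h0 : ∀ x, x ∉ Ω → ϑ x = 0)
    (hd : ∀ x, 0 < (F₀ + mx ϑ x).det) : ∃ (v : V2 → V2) (K K' : NNReal), Hom F₀ Ω ϑ v K K' := by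
  have hcl : IsCompact (closure Ω) := hb.isCompact_closure
  have hcs : HasCompactSupport ϑ := by
    refine HasCompactSupport.intro hcl ?_
    intro x hx
    exact h0 x fun hc => hx (subset_closure hc)
  obtain ⟨K, hK⟩ := hϑ.lipschitzWith_of_hasCompactSupport hcs (by norm_num)
  have hdiff : ∀ x, DifferentiableAt ℝ ϑ x := fun x => hϑ.differentiable (by norm_num) x
  have hu : ContDiff ℝ 1 (um F₀ ϑ) := by
    have h1 : ContDiff ℝ 1 fun x => lm F₀ x := (lm F₀).contDiff
    exact h1.add hϑ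
  have hfd : ∀ x, fderiv ℝ (um F₀ ϑ) x = lm F₀ + fderiv ℝ ϑ x := fun x =>
    (um_der F₀ ϑ x (hdiff x)).fderiv
  have hdet : ∀ x, (fderiv ℝ (um F₀ ϑ) x).det ≠ 0 := by
    intro x
    rw [hfd, ← clm_det, mat_add]
    exact (hd x).ne'
  have hlm : (lm F₀).det ≠ 0 := by
    rw [lm_det]
    exact hF.ne'
  have hprop : Tendsto (um F₀ ϑ) (cocompact V2) (cocompact V2) := by
    set e0 : V2 ≃L[ℝ] V2 := (lm F₀).toContinuousLinearEquivOfDetNeZero hlm with he0
    have he : ∀ x, e0 x = lm F₀ x := by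
      intro x
      have : (e0 : V2 →L[ℝ] V2) = lm F₀ := by
        rw [he0]
        exact ContinuousLinearMap.coe_toContinuousLinearEquivOfDetNeZero _ _
      rw [← this]
      rfl
    have h1 : Tendsto e0 (cocompact V2) (cocompact V2) :=
      e0.toHomeomorph.isClosedEmbedding.tendsto_cocompact
    refine h1.congr' ?_
    filter_upwards [hcl.compl_mem_cocompact] with x hx
    have : x ∉ Ω := fun hc => hx (subset_closure hc)
    unfold um
    rw [h0 x this, add_zero, he x, lm_apply]
  obtain ⟨v, hvc, hl, hr⟩ := hadamard hu hdet hprop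
  -- the derivative of the inverse
  have hvd : ∀ y, HasFDerivAt v (ContinuousLinearMap.inverse (fderiv ℝ (um F₀ ϑ) (v y))) y := by
    intro y
    set e : V2 ≃L[ℝ] V2 := (fderiv ℝ (um F₀ ϑ) (v y)).toContinuousLinearEquivOfDetNeZero
      (hdet (v y)) with he
    have hee : (e : V2 →L[ℝ] V2) = fderiv ℝ (um F₀ ϑ) (v y) := by
      rw [he]
      exact ContinuousLinearMap.coe_toContinuousLinearEquivOfDetNeZero _ _
    have h1 : HasFDerivAt (um F₀ ϑ) (e : V2 →L[ℝ] V2) (v y) := by
      rw [hee]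
      exact (hu.differentiable (by norm_num) (v y)).hasFDerivAt
    rw [← hee, ContinuousLinearMap.inverse_equiv]
    exact HasFDerivAt.of_local_left_inverse hvc.continuousAt h1 (Eventually.of_forall hr)
  have hN : Continuous fun x => ContinuousLinearMap.inverse (fderiv ℝ (um F₀ ϑ) x) := by
    rw [continuous_iff_continuousAt]
    intro x
    set e : V2 ≃L[ℝ] V2 := (fderiv ℝ (um F₀ ϑ) x).toContinuousLinearEquivOfDetNeZero
      (hdet x) with he
    have hee : (e : V2 →L[ℝ] V2) = fderiv ℝ (um F₀ ϑ) x := by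
      rw [he]
      exact ContinuousLinearMap.coe_toContinuousLinearEquivOfDetNeZero _ _
    have h1 : ContinuousAt ContinuousLinearMap.inverse (fderiv ℝ (um F₀ ϑ) x) := by
      rw [← hee]
      exact (contDiffAt_map_inverse (n := 0) e).continuousAt
    exact ContinuousAt.comp (f := fderiv ℝ (um F₀ ϑ)) h1
      (hu.continuous_fderiv (by norm_num)).continuousAt
  obtain ⟨B, hB⟩ := hcl.exists_bound_of_continuousOn hN.continuousOn
  have hbd : ∀ x, ‖ContinuousLinearMap.inverse (fderiv ℝ (um F₀ ϑ) x)‖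
      ≤ max B ‖ContinuousLinearMap.inverse (lm F₀)‖ := by
    intro x
    by_cases hx : x ∈ closure Ω
    · exact (hB x hx).trans (le_max_left _ _)
    · have h1 : fderiv ℝ ϑ x = 0 := by
        have : ϑ =ᶠ[𝓝 x] fun _ => 0 := by
          filter_upwards [isClosed_closure.isOpen_compl.mem_nhds hx] with y hy
          exact h0 y fun hc => hy (subset_closure hc)
        rw [this.fderiv_eq]
        exact fderiv_const_apply 0
      rw [hfd, h1, add_zero]
      exact le_max_right _ _
  have hv : LipschitzWith (max B ‖ContinuousLinearMap.inverse (lm F₀)‖).toNNReal v := by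
    refine lipschitzWith_of_nnnorm_fderiv_le (𝕜 := ℝ) (fun y => (hvd y).differentiableAt) ?_
    intro y
    rw [(hvd y).fderiv, ← NNReal.coe_le_coe, coe_nnnorm]
    exact (hbd (v y)).trans (Real.le_coe_toNNReal _)
  exact ⟨v, K, _, ⟨hF, ho, hb, hK, h0, hv, hl, hr, Eventually.of_forall hd⟩⟩

end Pool.Agent.TH594.MG
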