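import Mathlib

/-! One-dimensional consequences of rank-one convexity for energies with an additive
volumetric-isochoric split. -/

set_option autoImplicit false

namespace Pool.Agent.TH594.MG

open Set Filter Topology

section

variable {h f : ℝ → ℝ}

/-- the restriction to the diagonal line `diag(s, t)` -/
noncomputable def dia (h f : ℝ → ℝ) (t s : ℝ) : ℝ := h ((max s t) ^ 2 / (s * t)) + f (s * t)

lemma h_der (hh : ContDiffOn ℝ 2 h (Ici 1)) {k : ℝ} (hk : 1 < k) :
    HasDerivAt h (deriv h k) k ∧ HasDerivAt (deriv h) (deriv (deriv h) k) k := by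
  have h1 : ContDiffOn ℝ 2 h (Ioi 1) := hh.mono Ioi_subset_Ici_self
  have h2 : ContDiffAt ℝ 2 h k := (h1 k hk).contDiffAt (isOpen_Ioi.mem_nhds hk)
  refine ⟨(h2.differentiableAt (by norm_num)).hasDerivAt, ?_⟩
  have h3 : ContDiffOn ℝ 1 (deriv h) (Ioi 1) := by
    have := (contDiffOn_succ_iff_deriv_of_isOpen (n := 1) (f := h) (𝕜 := ℝ)
      (s := Ioi (1 : ℝ)) isOpen_Ioi).1 (by rw [one_add_one_eq_two]; exact h1)
    exact this.2.2
  have h4 : ContDiffAt ℝ 1 (deriv h) k := (h3 k hk).contDiffAt (isOpen_Ioi.mem_nhds hk)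
  exact (h4.differentiableAt (by norm_num)).hasDerivAt

lemma f_der (hf : ContDiffOn ℝ 2 f (Ioi 0)) {z : ℝ} (hz : 0 < z) :
    HasDerivAt f (deriv f z) z ∧ HasDerivAt (deriv f) (deriv (deriv f) z) z := by
  have h2 : ContDiffAt ℝ 2 f z := (hf z hz).contDiffAt (isOpen_Ioi.mem_nhds hz)
  refine ⟨(h2.differentiableAt (by norm_num)).hasDerivAt, ?_⟩
  have h3 : ContDiffOn ℝ 1 (deriv f) (Ioi 0) := by
    have := (contDiffOn_succ_iff_deriv_of_isOpen (n := 1) (f := f) (𝕜 := ℝ)
      (s := Ioi (0 : ℝ)) isOpen_Ioi).1 (by rw [one_add_one_eq_two]; exact hf)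
    exact this.2.2
  have h4 : ContDiffAt ℝ 1 (deriv f) z := (h3 z hz).contDiffAt (isOpen_Ioi.mem_nhds hz)
  exact (h4.differentiableAt (by norm_num)).hasDerivAt

/-- separate convexity gives `k² h''(k) + z² f''(z) ≥ 0` -/
theorem second (hh : ContDiffOn ℝ 2 h (Ici 1)) (hf : ContDiffOn ℝ 2 f (Ioi 0))
    (hR : ∀ t, 0 < t → ConvexOn ℝ (Ioi 0) (dia h f t)) {k z : ℝ} (hk : 1 < k) (hz : 0 < z) :
    0 ≤ k ^ 2 * deriv (deriv h) k + z ^ 2 * deriv (deriv f) z := by
  have hk0 : 0 < k := by linarith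
  set t : ℝ := Real.sqrt (z / k) with ht
  have ht0 : 0 < t := Real.sqrt_pos.2 (by positivity)
  have ht2 : t ^ 2 = z / k := Real.sq_sqrt (by positivity)
  set s0 : ℝ := k * t with hs0
  have hs0t : t < s0 := by nlinarith
  have hs00 : 0 < s0 := ht0.trans hs0t
  set φ : ℝ → ℝ := fun s => h (s / t) + f (s * t) with hφ
  have hc : ConvexOn ℝ (Ioi t) φ := by
    have h1 : ConvexOn ℝ (Ioi t) (dia h f t) :=
      (hR t ht0).subset (Ioi_subset_Ioi ht0.le) (convex_Ioi t)
    refine h1.congr ?_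
    intro s hs
    have hst : t < s := hs
    have hs1 : 0 < s := ht0.trans hst
    show h ((max s t) ^ 2 / (s * t)) + f (s * t) = h (s / t) + f (s * t)
    rw [max_eq_left hst.le]
    congr 2
    field_simp
  have hd : ∀ s, t < s → HasDerivAt φ (deriv h (s / t) * (1 / t) + deriv f (s * t) * t) s := by
    intro s hs
    have hs1 : 0 < s := ht0.trans hs
    have a1 : 1 < s / t := (one_lt_div ht0).2 hs
    have b1 : HasDerivAt (fun s : ℝ => s / t) (1 / t) s := (hasDerivAt_id s).div_const t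
    have b2 : HasDerivAt (fun s : ℝ => s * t) (1 * t) s := (hasDerivAt_id s).mul_const t
    rw [one_mul] at b2
    exact ((h_der hh a1).1.comp s b1).add ((f_der hf (mul_pos hs1 ht0)).1.comp s b2)
  have hmono : MonotoneOn (deriv φ) (Ioi t) :=
    hc.monotoneOn_deriv fun s hs => (hd s hs).differentiableAt
  have e1 : s0 / t = k := by
    rw [hs0]
    field_simp
  have e2 : s0 * t = z := by
    have : s0 * t = k * t ^ 2 := by rw [hs0]; ring
    rw [this, ht2]
    field_simp
  have hdd : HasDerivAt (deriv φ)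
      (deriv (deriv h) k * (1 / t) * (1 / t) + deriv (deriv f) z * t * t) s0 := by
    have b1 : HasDerivAt (fun s : ℝ => s / t) (1 / t) s0 := (hasDerivAt_id s0).div_const t
    have b2 : HasDerivAt (fun s : ℝ => s * t) (1 * t) s0 := (hasDerivAt_id s0).mul_const t
    rw [one_mul] at b2
    have c1 : HasDerivAt (deriv h) (deriv (deriv h) k) (s0 / t) := by
      rw [e1]
      exact (h_der hh hk).2
    have c2 : HasDerivAt (deriv f) (deriv (deriv f) z) (s0 * t) := by
      rw [e2]
      exact (f_der hf hz).2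
    have c3 := ((c1.comp s0 b1).mul_const (1 / t)).add ((c2.comp s0 b2).mul_const t)
    refine c3.congr_of_eventuallyEq ?_
    filter_upwards [isOpen_Ioi.mem_nhds hs0t] with s hs
    exact (hd s hs).deriv
  have hnn : 0 ≤ deriv (deriv h) k * (1 / t) * (1 / t) + deriv (deriv f) z * t * t := by
    refine hdd.hasDerivWithinAt.nonneg_of_monotoneOn (s := Ioi t) ?_ hmono
    have : 𝓝[Ioi t \ {s0}] s0 ≠ ⊥ := by
      have h1 : 𝓝[≠] s0 ≤ 𝓝[Ioi t \ {s0}] s0 := by
        refine nhdsWithin_le_iff.2 ?_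
        refine sdiff_mem ?_ ?_
        · exact mem_nhdsWithin_of_mem_nhds (isOpen_Ioi.mem_nhds hs0t)
        · exact self_mem_nhdsWithin
      exact (NeBot.mono inferInstance h1).ne
    rw [accPt_principal_iff_nhdsWithin]
    exact ⟨this⟩
  have h5 : 0 ≤ s0 ^ 2 * (deriv (deriv h) k * (1 / t) * (1 / t) + deriv (deriv f) z * t * t) :=
    mul_nonneg (sq_nonneg _) hnn
  have h6 : s0 ^ 2 * (deriv (deriv h) k * (1 / t) * (1 / t) + deriv (deriv f) z * t * t)
      = (s0 / t) ^ 2 * deriv (deriv h) k + (s0 * t) ^ 2 * deriv (deriv f) z := by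
    field_simp
  rw [h6, e1, e2] at h5
  exact h5

/-- convexity across the conformal matrices -/
theorem gap (hR : ∀ t, 0 < t → ConvexOn ℝ (Ioi 0) (dia h f t)) {k : ℝ} (hk : 1 ≤ k) :
    h 1 + f 1 ≤ h k + (k / (k + 1) * f (1 / k) + 1 / (k + 1) * f k) := by
  have hk0 : 0 < k := by linarith
  have q1 : (1 / k) ∈ Ioi (0 : ℝ) := mem_Ioi.2 (by positivity)
  have q2 : k ∈ Ioi (0 : ℝ) := mem_Ioi.2 hk0
  have q3 : 0 ≤ k / (k + 1) := by positivity
  have q4 : 0 ≤ 1 / (k + 1) := by positivity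
  have q5 : k / (k + 1) + 1 / (k + 1) = 1 := by field_simp
  have h1 := (hR 1 one_pos).2 q1 q2 q3 q4 q5
  simp only [smul_eq_mul] at h1
  have e0 : k / (k + 1) * (1 / k) + 1 / (k + 1) * k = 1 := by
    field_simp
    ring
  have e1 : dia h f 1 1 = h 1 + f 1 := by simp [dia]
  have e2 : dia h f 1 (1 / k) = h k + f (1 / k) := by
    unfold dia
    have : 1 / k ≤ 1 := by
      rw [div_le_one hk0]
      exact hk
    rw [max_eq_right this, mul_one]
    congr 2
    field_simp
  have e3 : dia h f 1 k = h k + f k := by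
    unfold dia
    rw [max_eq_left hk, mul_one]
    congr 2
    field_simp
  rw [e0, e1, e2, e3] at h1
  have e4 : k / (k + 1) * (h k + f (1 / k)) + 1 / (k + 1) * (h k + f k)
      = h k + (k / (k + 1) * f (1 / k) + 1 / (k + 1) * f k) := by
    field_simp
    ring
  linarith

/-- the decomposition of the energy -/
theorem ex_c (hh : ContDiffOn ℝ 2 h (Ici 1)) (hf : ContDiffOn ℝ 2 f (Ioi 0))
    (hR : ∀ t, 0 < t → ConvexOn ℝ (Ioi 0) (dia h f t))
    (hN : ∀ c : ℝ, 0 < c → ¬ ConvexOn ℝ (Ioi 0) fun z => f z + c * Real.log z) :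
    ∃ c : ℝ, 0 ≤ c ∧ ConvexOn ℝ (Ici 1) (fun k => h k - c * (k - Real.log k)) ∧
      (∀ k, 1 ≤ k → h 1 - c * (1 - Real.log 1) ≤ h k - c * (k - Real.log k)) ∧
      ConvexOn ℝ (Ioi 0) fun z => f z - c * Real.log z := by
  set B : Set ℝ := (fun k => k ^ 2 * deriv (deriv h) k) '' Ioi 1 with hB
  have hBne : B.Nonempty := ⟨_, 2, by norm_num [mem_Ioi], rfl⟩
  have hlow : ∀ z : ℝ, 0 < z → ∀ b ∈ B, -(z ^ 2 * deriv (deriv f) z) ≤ b := by
    rintro z hz b ⟨k, hk, rfl⟩
    have := second hh hf hR hk hz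
    show -(z ^ 2 * deriv (deriv f) z) ≤ k ^ 2 * deriv (deriv h) k
    linarith
  have hBb : BddBelow B := ⟨_, fun b hb => hlow 1 one_pos b hb⟩
  set c : ℝ := sInf B with hc
  have c1 : ∀ k, 1 < k → c ≤ k ^ 2 * deriv (deriv h) k := fun k hk => csInf_le hBb ⟨k, hk, rfl⟩
  have c2 : ∀ z, 0 < z → -(z ^ 2 * deriv (deriv f) z) ≤ c := fun z hz =>
    le_csInf hBne (hlow z hz)
  -- convexity of `f - b log`
  have hconv : ∀ b : ℝ, (∀ z, 0 < z → -(z ^ 2 * deriv (deriv f) z) ≤ b) →
      ConvexOn ℝ (Ioi 0) fun z => f z - b * Real.log z := by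
    intro b hb
    have hd : ∀ z, 0 < z → HasDerivAt (fun z => f z - b * Real.log z)
        (deriv f z - b * z⁻¹) z := fun z hz =>
      (f_der hf hz).1.sub ((Real.hasDerivAt_log hz.ne').const_mul b)
    have hdd : ∀ z, 0 < z → HasDerivAt (deriv fun z => f z - b * Real.log z)
        (deriv (deriv f) z - b * (-(z ^ 2)⁻¹)) z := by
      intro z hz
      have h3 : HasDerivAt (fun z => deriv f z - b * z⁻¹)
          (deriv (deriv f) z - b * (-(z ^ 2)⁻¹)) z :=
        (f_der hf hz).2.sub ((hasDerivAt_inv hz.ne').const_mul b)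
      refine h3.congr_of_eventuallyEq ?_
      filter_upwards [isOpen_Ioi.mem_nhds hz] with y hy
      exact (hd y hy).deriv
    refine convexOn_of_deriv2_nonneg (convex_Ioi 0) ?_ ?_ ?_ ?_
    · intro z hz
      exact (hd z hz).continuousAt.continuousWithinAt
    · rw [interior_Ioi]
      intro z hz
      exact (hd z hz).differentiableAt.differentiableWithinAt
    · rw [interior_Ioi]
      intro z hz
      exact (hdd z hz).differentiableAt.differentiableWithinAt
    · rw [interior_Ioi]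
      intro z hz
      have hz0 : (0 : ℝ) < z := hz
      show 0 ≤ deriv (deriv fun z => f z - b * Real.log z) z
      rw [(hdd z hz).deriv]
      have h4 := hb z hz
      have h5 : deriv (deriv f) z - b * (-(z ^ 2)⁻¹)
          = (z ^ 2 * deriv (deriv f) z + b) / z ^ 2 := by
        field_simp
        ring
      rw [h5]
      exact div_nonneg (by linarith) (sq_nonneg _)
  have hc0 : 0 ≤ c := by
    by_contra hlt
    push Not at hlt
    refine hN (-c) (by linarith) ?_
    have h3 := hconv c c2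
    refine h3.congr ?_
    intro z _
    show f z - c * Real.log z = f z + -c * Real.log z
    ring
  have hgc : ConvexOn ℝ (Ici 1) (fun k => h k - c * (k - Real.log k)) := by
    have hd : ∀ k, 1 < k → HasDerivAt (fun k => h k - c * (k - Real.log k))
        (deriv h k - c * (1 - k⁻¹)) k := fun k hk =>
      (h_der hh hk).1.sub (((hasDerivAt_id k).sub
        (Real.hasDerivAt_log (by linarith))).const_mul c)
    have hdd : ∀ k, 1 < k → HasDerivAt (deriv fun k => h k - c * (k - Real.log k))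
        (deriv (deriv h) k - c * (-(-(k ^ 2)⁻¹))) k := by
      intro k hk
      have hk0 : k ≠ 0 := by linarith
      have h3 : HasDerivAt (fun k => deriv h k - c * (1 - k⁻¹))
          (deriv (deriv h) k - c * (-(-(k ^ 2)⁻¹))) k :=
        (h_der hh hk).2.sub (((hasDerivAt_inv hk0).const_sub 1).const_mul c)
      refine h3.congr_of_eventuallyEq ?_
      filter_upwards [isOpen_Ioi.mem_nhds hk] with y hy
      exact (hd y hy).deriv
    refine convexOn_of_deriv2_nonneg (convex_Ici 1) ?_ ?_ ?_ ?_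
    · refine hh.continuousOn.sub (continuousOn_const.mul (continuousOn_id.sub ?_))
      exact Real.continuousOn_log.mono fun x hx => by
        have : (1 : ℝ) ≤ x := hx
        simp only [mem_compl_iff, mem_singleton_iff]
        linarith
    · rw [interior_Ici]
      intro z hz
      exact (hd z hz).differentiableAt.differentiableWithinAt
    · rw [interior_Ici]
      intro z hz
      exact (hdd z hz).differentiableAt.differentiableWithinAt
    · rw [interior_Ici]
      intro k hk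
      have hk1 : (1 : ℝ) < k := hk
      have hk0 : k ≠ 0 := by linarith
      show 0 ≤ deriv (deriv fun k => h k - c * (k - Real.log k)) k
      rw [(hdd k hk).deriv]
      have h4 := c1 k hk
      have h5 : deriv (deriv h) k - c * (-(-(k ^ 2)⁻¹))
          = (k ^ 2 * deriv (deriv h) k - c) / k ^ 2 := by
        field_simp
      rw [h5]
      exact div_nonneg (by linarith) (sq_nonneg _)
  refine ⟨c, hc0, hgc, ?_, hconv c c2⟩
  set R : ℝ → ℝ := fun k => k / (k + 1) * f (1 / k) + 1 / (k + 1) * f k - f 1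
    + c * (k - 1 - Real.log k) with hRdef
  have hR1 : R 1 = 0 := by
    simp only [hRdef, Real.log_one]
    norm_num
    ring
  have hRd : HasDerivAt R 0 1 := by
    have d1 : HasDerivAt (fun k : ℝ => k / (k + 1)) ((1 * (1 + 1) - 1 * 1) / (1 + 1) ^ 2) 1 :=
      (hasDerivAt_id (1 : ℝ)).div ((hasDerivAt_id (1 : ℝ)).add_const 1) (by norm_num)
    have d2 : HasDerivAt (fun k : ℝ => 1 / (k + 1)) ((0 * (1 + 1) - 1 * 1) / (1 + 1) ^ 2) 1 :=
      (hasDerivAt_const (1 : ℝ) (1 : ℝ)).div ((hasDerivAt_id (1 : ℝ)).add_const 1) (by norm_num)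
    have d3 : HasDerivAt (fun k : ℝ => 1 / k) ((0 * 1 - 1 * 1) / 1 ^ 2) 1 :=
      (hasDerivAt_const (1 : ℝ) (1 : ℝ)).div (hasDerivAt_id (1 : ℝ)) (by norm_num)
    have d4 : HasDerivAt f (deriv f 1) 1 := (f_der hf one_pos).1
    have d4' : HasDerivAt f (deriv f 1) (1 / 1) := by
      rw [div_one]
      exact d4
    have d5 := d4'.comp (1 : ℝ) d3
    have d6 : HasDerivAt (fun k : ℝ => k - 1 - Real.log k) (1 - (1 : ℝ)⁻¹) 1 :=
      ((hasDerivAt_id (1 : ℝ)).sub_const 1).sub (Real.hasDerivAt_log one_ne_zero)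
    have d7 := (((d1.mul d5).add (d2.mul d4)).sub_const (f 1)).add (d6.const_mul c)
    refine d7.congr_deriv ?_
    simp only [Function.comp_apply]
    norm_num
    ring
  have hlowg : ∀ k, 1 ≤ k → h 1 - c * (1 - Real.log 1) - R k ≤ h k - c * (k - Real.log k) := by
    intro k hk
    have h1 := gap hR hk
    simp only [hRdef, Real.log_one]
    nlinarith
  by_contra hcon
  push Not at hcon
  obtain ⟨k1, hk1, hlt⟩ := hcon
  have hk1' : 1 < k1 := by
    rcases eq_or_lt_of_le hk1 with h1 | h1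
    · subst h1
      exact absurd hlt (lt_irrefl _)
    · exact h1
  set δ : ℝ := ((h 1 - c * (1 - Real.log 1)) - (h k1 - c * (k1 - Real.log k1))) / (k1 - 1) with hδ
  have hδ0 : 0 < δ := div_pos (by linarith) (by linarith)
  have hup : ∀ k, 1 < k → k < k1 → δ * (k - 1) ≤ R k := by
    intro k hk hkk
    have q1 : (1 : ℝ) ∈ Ici (1 : ℝ) := mem_Ici.2 le_rfl
    have q2 : k1 ∈ Ici (1 : ℝ) := mem_Ici.2 hk1
    have hpos : 0 < k1 - 1 := by linarith
    have q3 : 0 ≤ (k1 - k) / (k1 - 1) := div_nonneg (by linarith) hpos.le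
    have q4 : 0 ≤ (k - 1) / (k1 - 1) := div_nonneg (by linarith) hpos.le
    have q5 : (k1 - k) / (k1 - 1) + (k - 1) / (k1 - 1) = 1 := by
      field_simp
      ring
    have h1 := hgc.2 q1 q2 q3 q4 q5
    simp only [smul_eq_mul] at h1
    have e0 : (k1 - k) / (k1 - 1) * 1 + (k - 1) / (k1 - 1) * k1 = k := by
      field_simp
      ring
    rw [e0] at h1
    have h2 := hlowg k hk.le
    have e1 : (k1 - k) / (k1 - 1) = 1 - (k - 1) / (k1 - 1) := by linarith
    have e2 : δ * (k - 1) = (k - 1) / (k1 - 1)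
        * ((h 1 - c * (1 - Real.log 1)) - (h k1 - c * (k1 - Real.log k1))) := by
      rw [hδ]
      ring
    rw [e1] at h1
    rw [e2]
    nlinarith
  have hsl := hasDerivAt_iff_tendsto_slope.1 hRd
  have hsl2 : Tendsto (slope R 1) (𝓝[>] 1) (𝓝 0) :=
    hsl.mono_left (nhdsWithin_mono _ fun x hx => ne_of_gt hx)
  have hev : ∀ᶠ k in 𝓝[>] (1 : ℝ), slope R 1 k < δ := hsl2.eventually (gt_mem_nhds hδ0)
  have hev2 : ∀ᶠ k in 𝓝[>] (1 : ℝ), k ∈ Ioo (1 : ℝ) k1 := Ioo_mem_nhdsGT hk1'
  obtain ⟨k, hka, hkb⟩ := (hev.and hev2).exists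
  have h3 := hup k hkb.1 hkb.2
  rw [slope_def_field, hR1, sub_zero, div_lt_iff₀ (by linarith [hkb.1])] at hka
  linarith

end

end Pool.Agent.TH594.MG
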