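import Pool.Agent.W360.MQ.Stm

/-! The function `‖A‖² - 2 log ‖A‖ det A` is rank-one convex along diagonal lines. -/

set_option autoImplicit false

namespace Pool.Agent.TH594.MG

open Set Pool.Agent.W360.MQ

/-- `r² - 1 - 2 r log r` -/
noncomputable def p1 (r : ℝ) : ℝ := r ^ 2 - 1 - 2 * (r * Real.log r)
/-- `r² - 1 + 2 r log r` -/
noncomputable def p2 (r : ℝ) : ℝ := r ^ 2 - 1 + 2 * (r * Real.log r)

lemma p1_der (r : ℝ) (hr : 0 < r) : HasDerivAt p1 (2 * r - 2 - 2 * Real.log r) r := by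
  have h1 : HasDerivAt (fun r : ℝ => r ^ 2 - 1 - 2 * (r * Real.log r))
      ((2 : ℕ) * r ^ (2 - 1) * 1 - 2 * (1 * Real.log r + r * r⁻¹)) r := by
    refine HasDerivAt.sub ?_ ?_
    · exact ((hasDerivAt_id r).pow 2).sub_const 1
    · exact ((hasDerivAt_id r).mul (Real.hasDerivAt_log hr.ne')).const_mul 2
  have e : ((2 : ℕ) * r ^ (2 - 1) * 1 - 2 * (1 * Real.log r + r * r⁻¹))
      = 2 * r - 2 - 2 * Real.log r := by
    rw [mul_inv_cancel₀ hr.ne']
    push_cast
    ring
  rw [e] at h1
  exact h1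

lemma p1_conv : ConvexOn ℝ (Ici 1) p1 := by
  have hd : ∀ x ∈ interior (Ici (1 : ℝ)), HasDerivAt p1 (2 * x - 2 - 2 * Real.log x) x := by
    intro x hx
    rw [interior_Ici] at hx
    exact p1_der x (by linarith [mem_Ioi.1 hx])
  refine convexOn_of_deriv2_nonneg (convex_Ici 1) ?_ ?_ ?_ ?_
  · intro x hx
    exact (p1_der x (by linarith [mem_Ici.1 hx])).continuousAt.continuousWithinAt
  · intro x hx
    exact (hd x hx).differentiableAt.differentiableWithinAt
  · have h : DifferentiableOn ℝ (fun x : ℝ => 2 * x - 2 - 2 * Real.log x) (interior (Ici 1)) := by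
      intro x hx
      rw [interior_Ici] at hx
      have hx0 : x ≠ 0 := by linarith [mem_Ioi.1 hx]
      exact (((differentiableAt_id.const_mul 2).sub_const 2).sub
        ((Real.differentiableAt_log hx0).const_mul 2)).differentiableWithinAt
    refine h.congr ?_
    intro x hx
    exact (hd x hx).deriv
  · intro x hx
    have hx' := hx
    rw [interior_Ici] at hx'
    have hx1 : (1 : ℝ) < x := hx'
    have h2 : HasDerivAt (deriv p1) (2 - 2 * x⁻¹) x := by
      have h3 : HasDerivAt (fun x : ℝ => 2 * x - 2 - 2 * Real.log x) (2 * 1 - 2 * x⁻¹) x :=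
        (((hasDerivAt_id x).const_mul 2).sub_const 2).sub
          ((Real.hasDerivAt_log (by linarith)).const_mul 2)
      rw [mul_one] at h3
      refine h3.congr_of_eventuallyEq ?_
      filter_upwards [isOpen_Ioi.mem_nhds hx1] with y hy
      exact (p1_der y (by linarith [mem_Ioi.1 hy])).deriv
    show 0 ≤ deriv (deriv p1) x
    rw [h2.deriv]
    have : x⁻¹ ≤ 1 := inv_le_one_of_one_le₀ hx1.le
    linarith

lemma p1_mono : MonotoneOn p1 (Ici 1) := by
  refine monotoneOn_of_deriv_nonneg (convex_Ici 1) ?_ ?_ ?_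
  · intro x hx
    exact (p1_der x (by linarith [mem_Ici.1 hx])).continuousAt.continuousWithinAt
  · intro x hx
    rw [interior_Ici] at hx
    exact (p1_der x (by linarith [mem_Ioi.1 hx])).differentiableAt.differentiableWithinAt
  · intro x hx
    rw [interior_Ici] at hx
    have hx0 : 0 < x := by linarith [mem_Ioi.1 hx]
    rw [(p1_der x hx0).deriv]
    linarith [Real.log_le_sub_one_of_pos hx0]

lemma p2_conv : ConvexOn ℝ (Ici 1) p2 := by
  have h1 : ConvexOn ℝ (Ici (1 : ℝ)) fun r : ℝ => r ^ 2 :=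
    ((convexOn_pow 2).subset (Ici_subset_Ici.2 zero_le_one) (convex_Ici 1))
  have h2 : ConvexOn ℝ (Ici (1 : ℝ)) fun r : ℝ => 2 * (r * Real.log r) :=
    (Real.convexOn_mul_log.subset (Ici_subset_Ici.2 zero_le_one) (convex_Ici 1)).smul
      (by norm_num : (0 : ℝ) ≤ 2)
  have h3 : ConvexOn ℝ (Ici (1 : ℝ)) fun r : ℝ => r ^ 2 + (-1) + 2 * (r * Real.log r) :=
    (h1.add (convexOn_const (-1) (convex_Ici 1))).add h2
  refine h3.congr ?_
  intro x _
  show x ^ 2 + (-1) + 2 * (x * Real.log x) = p2 x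
  unfold p2
  ring

lemma p2_mono : MonotoneOn p2 (Ici 1) := by
  intro x hx y hy hxy
  have hx1 : (1 : ℝ) ≤ x := hx
  have hy1 : (1 : ℝ) ≤ y := hy
  unfold p2
  have h1 : Real.log x ≤ Real.log y := Real.log_le_log (by linarith) hxy
  have h0 : 0 ≤ Real.log x := Real.log_nonneg hx1
  have h2 : x * Real.log x ≤ y * Real.log y :=
    mul_le_mul hxy h1 h0 (by linarith)
  nlinarith

lemma comp_max (p : ℝ → ℝ) (hc : ConvexOn ℝ (Ici 1) p) (hm : MonotoneOn p (Ici 1)) (a : ℝ) :
    ConvexOn ℝ univ fun t : ℝ => p (max (a * t) 1) := by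
  refine ⟨convex_univ, ?_⟩
  intro x _ y _ u v hu hv huv
  have h1 : max (a * (u • x + v • y)) 1 ≤ u • max (a * x) 1 + v • max (a * y) 1 := by
    simp only [smul_eq_mul]
    refine max_le ?_ ?_
    · have e1 : a * (u * x + v * y) = u * (a * x) + v * (a * y) := by ring
      rw [e1]
      exact add_le_add (mul_le_mul_of_nonneg_left (le_max_left _ _) hu)
        (mul_le_mul_of_nonneg_left (le_max_left _ _) hv)
    · have : (1 : ℝ) = u * 1 + v * 1 := by linarith
      rw [this]
      exact add_le_add (mul_le_mul_of_nonneg_left (by rw [← this]; exact le_max_right _ _) hu)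
        (mul_le_mul_of_nonneg_left (by rw [← this]; exact le_max_right _ _) hv)
  have hX : max (a * x) 1 ∈ Ici (1 : ℝ) := mem_Ici.2 (le_max_right _ _)
  have hY : max (a * y) 1 ∈ Ici (1 : ℝ) := mem_Ici.2 (le_max_right _ _)
  have h2 := hm (mem_Ici.2 (le_max_right (a * (u • x + v • y)) 1))
    ((convex_Ici (1 : ℝ)) hX hY hu hv huv) h1
  exact h2.trans (hc.2 hX hY hu hv huv)

/-- the dual magic function in the form of project MQ -/
theorem rc_magic : RC (fun s => s ^ 2) (fun s => -(2 * Real.log s)) := by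
  intro τ
  rcases eq_or_ne τ 0 with h0 | h0
  · subst h0
    have : (fun t : ℝ => (max |t| |(0 : ℝ)|) ^ 2 + -(2 * Real.log (max |t| |(0 : ℝ)|)) * (t * 0))
        = fun t => t ^ 2 := by
      funext t
      rw [abs_zero, max_eq_left (abs_nonneg t), sq_abs]
      ring
    show ConvexOn ℝ univ (fun t : ℝ => (max |t| |(0 : ℝ)|) ^ 2
      + -(2 * Real.log (max |t| |(0 : ℝ)|)) * (t * 0))
    rw [this]
    exact Even.convexOn_pow (by norm_num)
  · have hτ : 0 < |τ| := abs_pos.2 h0
    -- the function is `τ² - 2 t τ log |τ| + τ² (p1 (max (t/τ) 1) + p2 (max (-t/τ) 1))`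
    have key : ∀ t : ℝ, (max |t| |τ|) ^ 2 + -(2 * Real.log (max |t| |τ|)) * (t * τ)
        = ((-(2 * τ * Real.log |τ|)) * t + τ ^ 2)
          + τ ^ 2 * (p1 (max (τ⁻¹ * t) 1) + p2 (max (-τ⁻¹ * t) 1)) := by
      intro t
      have hτ2 : τ ^ 2 = |τ| ^ 2 := (sq_abs τ).symm
      rcases le_or_gt |t| |τ| with h | h
      · have e1 : |τ⁻¹ * t| ≤ 1 := by
          rw [abs_mul, abs_inv, inv_mul_le_iff₀ hτ]
          linarith
        have e2 := abs_le.1 e1
        rw [max_eq_right h, max_eq_right e2.2, max_eq_right (by linarith [e2.1] : -τ⁻¹ * t ≤ 1)]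
        unfold p1 p2
        simp only [Real.log_one, mul_zero]
        rw [sq_abs]
        ring
      · have ht : 0 < |t| := hτ.trans h
        have ht0 : t ≠ 0 := abs_pos.1 ht
        rw [max_eq_left h.le, sq_abs]
        have hl : Real.log |t| = Real.log |τ| + Real.log |τ⁻¹ * t| := by
          rw [abs_mul, abs_inv, Real.log_mul (inv_ne_zero hτ.ne') ht.ne', Real.log_inv]
          ring
        have h1 : 1 < |τ⁻¹ * t| := by
          rw [abs_mul, abs_inv, lt_inv_mul_iff₀ hτ]
          linarith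
        rcases le_or_gt 0 (τ⁻¹ * t) with hs | hs
        · rw [abs_of_nonneg hs] at h1 hl
          rw [max_eq_left h1.le, max_eq_right (by linarith : -τ⁻¹ * t ≤ 1)]
          unfold p1 p2
          rw [hl]
          simp only [Real.log_one, mul_zero]
          have : τ ^ 2 * (τ⁻¹ * t) ^ 2 = t ^ 2 := by field_simp
          have : τ ^ 2 * ((τ⁻¹ * t) * Real.log (τ⁻¹ * t)) = (t * τ) * Real.log (τ⁻¹ * t) := by
            field_simp
          nlinarith
        · rw [abs_of_neg hs] at h1 hl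
          have hn : -(τ⁻¹ * t) = -τ⁻¹ * t := by ring
          rw [hn] at h1 hl
          rw [max_eq_right (by linarith : τ⁻¹ * t ≤ 1), max_eq_left h1.le]
          unfold p1 p2
          rw [hl]
          simp only [Real.log_one, mul_zero]
          have : τ ^ 2 * (-τ⁻¹ * t) ^ 2 = t ^ 2 := by field_simp
          have : τ ^ 2 * ((-τ⁻¹ * t) * Real.log (-τ⁻¹ * t)) = -((t * τ) * Real.log (-τ⁻¹ * t)) := by
            field_simp
          nlinarith
    have hA : ConvexOn ℝ univ fun t : ℝ => ((-(2 * τ * Real.log |τ|)) * t + τ ^ 2) := by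
      refine ⟨convex_univ, ?_⟩
      intro x _ y _ u v _ _ huv
      simp only [smul_eq_mul]
      have : τ ^ 2 = u * τ ^ 2 + v * τ ^ 2 := by rw [← add_mul, huv, one_mul]
      nlinarith
    have hB : ConvexOn ℝ univ fun t : ℝ =>
        τ ^ 2 * (p1 (max (τ⁻¹ * t) 1) + p2 (max (-τ⁻¹ * t) 1)) :=
      ((comp_max p1 p1_conv p1_mono τ⁻¹).add (comp_max p2 p2_conv p2_mono (-τ⁻¹))).smul
        (sq_nonneg τ)
    have hC := hA.add hB
    refine hC.congr ?_
    intro t _
    exact (key t).symm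

end Pool.Agent.TH594.MG
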