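import Pool.Agent.W360.MQ.Stm

/-! The transformation `S(A) ↦ det A · S(A⁻¹)` for bi-Lipschitz homeomorphisms of the plane. -/

set_option autoImplicit false

namespace Pool.Agent.TH594.MG

open MeasureTheory Set Filter Topology Pool.Agent.W360.MQ

abbrev V2 := Fin 2 → ℝ
abbrev M2 := Matrix (Fin 2) (Fin 2) ℝ

/-- the Jacobian matrix -/
noncomputable def mx (f : V2 → V2) (x : V2) : M2 :=
  LinearMap.toMatrix' ((fderiv ℝ f x : V2 →L[ℝ] V2) : V2 →ₗ[ℝ] V2)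

/-- the deformation `x ↦ F₀ x + ϑ x` -/
def um (F₀ : M2) (ϑ : V2 → V2) (x : V2) : V2 := F₀.mulVec x + ϑ x

/-- the linear map of a matrix -/
noncomputable def lm (F₀ : M2) : V2 →L[ℝ] V2 := LinearMap.toContinuousLinearMap (Matrix.toLin' F₀)

lemma lm_apply (F₀ : M2) (x : V2) : lm F₀ x = F₀.mulVec x := rfl

lemma lm_det (F₀ : M2) : (lm F₀).det = F₀.det := by
  unfold lm ContinuousLinearMap.det
  exact LinearMap.det_toLin' F₀

lemma lm_mat (F₀ : M2) : LinearMap.toMatrix' ((lm F₀ : V2 →L[ℝ] V2) : V2 →ₗ[ℝ] V2) = F₀ := by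
  unfold lm
  exact LinearMap.toMatrix'_toLin' F₀

lemma um_der (F₀ : M2) (ϑ : V2 → V2) (x : V2) (h : DifferentiableAt ℝ ϑ x) :
    HasFDerivAt (um F₀ ϑ) (lm F₀ + fderiv ℝ ϑ x) x := by
  have h1 : HasFDerivAt (fun x => lm F₀ x) (lm F₀) x := (lm F₀).hasFDerivAt
  exact h1.add h.hasFDerivAt

lemma mat_add (F₀ : M2) (L : V2 →L[ℝ] V2) :
    LinearMap.toMatrix' ((lm F₀ + L : V2 →L[ℝ] V2) : V2 →ₗ[ℝ] V2)
      = F₀ + LinearMap.toMatrix' (L : V2 →ₗ[ℝ] V2) := by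
  rw [ContinuousLinearMap.toLinearMap_add, map_add, lm_mat]

lemma clm_det (L : V2 →L[ℝ] V2) : (LinearMap.toMatrix' (L : V2 →ₗ[ℝ] V2)).det = L.det := by
  unfold ContinuousLinearMap.det
  exact LinearMap.det_toMatrix' (L : V2 →ₗ[ℝ] V2)

lemma mat_cont : Continuous fun L : V2 →L[ℝ] V2 => LinearMap.toMatrix' (L : V2 →ₗ[ℝ] V2) := by
  refine continuous_matrix fun i j => ?_
  simp only [LinearMap.toMatrix'_apply, ContinuousLinearMap.coe_coe]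
  exact (continuous_apply i).comp ((ContinuousLinearMap.apply ℝ V2 _).continuous)

lemma T_cont (F₀ : M2) :
    Continuous fun L : V2 →L[ℝ] V2 => F₀ + LinearMap.toMatrix' (L : V2 →ₗ[ℝ] V2) :=
  continuous_const.add mat_cont

lemma det_meas (F₀ : M2) (ϑ : V2 → V2) : Measurable fun x => (F₀ + mx ϑ x).det := by
  have h : Continuous fun L : V2 →L[ℝ] V2 => (F₀ + LinearMap.toMatrix' (L : V2 →ₗ[ℝ] V2)).det :=
    (T_cont F₀).matrix_det
  exact h.measurable.comp (measurable_fderiv ℝ ϑ)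

/-- the situation: `u = F₀ x + ϑ` is a bi-Lipschitz homeomorphism with inverse `v` -/
structure Hom (F₀ : M2) (Ω : Set V2) (ϑ v : V2 → V2) (K K' : NNReal) : Prop where
  det : 0 < F₀.det
  opn : IsOpen Ω
  bdd : Bornology.IsBounded Ω
  lip : LipschitzWith K ϑ
  zero : ∀ x, x ∉ Ω → ϑ x = 0
  lipv : LipschitzWith K' v
  left : Function.LeftInverse v (um F₀ ϑ)
  right : Function.RightInverse v (um F₀ ϑ)
  pos : ∀ᵐ x : V2, 0 < (F₀ + mx ϑ x).det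

/-- the good set -/
def Dg (F₀ : M2) (Ω : Set V2) (ϑ : V2 → V2) : Set V2 :=
  {x | x ∈ Ω ∧ DifferentiableAt ℝ ϑ x ∧ 0 < (F₀ + mx ϑ x).det}

section

variable {F₀ : M2} {Ω : Set V2} {ϑ v : V2 → V2} {K K' : NNReal}

lemma Dg_meas (h : Hom F₀ Ω ϑ v K K') : MeasurableSet (Dg F₀ Ω ϑ) := by
  have h1 : MeasurableSet {x | DifferentiableAt ℝ ϑ x} := measurableSet_of_differentiableAt ℝ ϑ
  have h2 : MeasurableSet {x | 0 < (F₀ + mx ϑ x).det} :=
    measurableSet_lt measurable_const (det_meas F₀ ϑ)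
  exact h.opn.measurableSet.inter (h1.inter h2)

lemma Dg_ae (h : Hom F₀ Ω ϑ v K K') : volume (Ω \ Dg F₀ Ω ϑ) = 0 := by
  have h1 : ∀ᵐ x : V2, DifferentiableAt ℝ ϑ x := h.lip.ae_differentiableAt
  have h2 : ∀ᵐ x : V2, DifferentiableAt ℝ ϑ x ∧ 0 < (F₀ + mx ϑ x).det := by
    filter_upwards [h1, h.pos] with x a b
    exact ⟨a, b⟩
  refine measure_mono_null ?_ (ae_iff.1 h2)
  intro x hx
  exact fun hc => hx.2 ⟨hx.1, hc.1, hc.2⟩

lemma u_lip (h : Hom F₀ Ω ϑ v K K') : LipschitzWith (‖lm F₀‖₊ + K) (um F₀ ϑ) :=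
  (lm F₀).lipschitz.add h.lip

lemma null_image {C : NNReal} {f : V2 → V2} (hf : LipschitzWith C f) {s : Set V2}
    (hs : volume s = 0) : volume (f '' s) = 0 := by
  have e : (volume : Measure V2) = Measure.hausdorffMeasure (2 : ℝ) := by
    have := hausdorffMeasure_pi_real (ι := Fin 2)
    rw [Fintype.card_fin, Nat.cast_two] at this
    exact this.symm
  have h1 := hf.hausdorffMeasure_image_le (d := (2 : ℝ)) (by norm_num) s
  rw [← e, hs, mul_zero] at h1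
  exact nonpos_iff_eq_zero.1 h1

lemma inv_der (h : Hom F₀ Ω ϑ v K K') {x : V2} (hx : DifferentiableAt ℝ ϑ x)
    (hd : 0 < (F₀ + mx ϑ x).det) :
    DifferentiableAt ℝ v (um F₀ ϑ x) ∧ mx v (um F₀ ϑ x) = (F₀ + mx ϑ x)⁻¹ := by
  have hdet : (lm F₀ + fderiv ℝ ϑ x).det ≠ 0 := by
    rw [← clm_det, mat_add]
    exact hd.ne'
  set e : V2 ≃L[ℝ] V2 := (lm F₀ + fderiv ℝ ϑ x).toContinuousLinearEquivOfDetNeZero hdet with he
  have hee : (e : V2 →L[ℝ] V2) = lm F₀ + fderiv ℝ ϑ x := by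
    rw [he]
    exact ContinuousLinearMap.coe_toContinuousLinearEquivOfDetNeZero _ _
  have hu : HasFDerivAt (um F₀ ϑ) (e : V2 →L[ℝ] V2) (v (um F₀ ϑ x)) := by
    rw [h.left x, hee]
    exact um_der F₀ ϑ x hx
  have hv : HasFDerivAt v (e.symm : V2 →L[ℝ] V2) (um F₀ ϑ x) :=
    HasFDerivAt.of_local_left_inverse h.lipv.continuous.continuousAt hu
      (Eventually.of_forall h.right)
  refine ⟨hv.differentiableAt, ?_⟩
  unfold mx
  rw [hv.fderiv]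
  symm
  refine Matrix.inv_eq_left_inv ?_
  have h1 := mat_add F₀ (fderiv ℝ ϑ x)
  rw [← hee] at h1
  show LinearMap.toMatrix' ((e.symm : V2 →L[ℝ] V2) : V2 →ₗ[ℝ] V2)
    * (F₀ + LinearMap.toMatrix' ((fderiv ℝ ϑ x : V2 →L[ℝ] V2) : V2 →ₗ[ℝ] V2)) = 1
  rw [← h1, ← LinearMap.toMatrix'_mul]
  have h2 : ((e.symm : V2 →L[ℝ] V2) : V2 →ₗ[ℝ] V2) * ((e : V2 →L[ℝ] V2) : V2 →ₗ[ℝ] V2) = 1 := by
    refine LinearMap.ext fun y => ?_
    exact e.symm_apply_apply y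
  rw [h2]
  exact LinearMap.toMatrix'_one

lemma img (h : Hom F₀ Ω ϑ v K K') : v ⁻¹' Ω = lm F₀ '' Ω := by
  have hF : IsUnit F₀.det := h.det.ne'.isUnit
  ext y
  constructor
  · intro hy
    by_contra hc
    refine hc ⟨F₀⁻¹.mulVec y, ?_, ?_⟩
    · by_contra hx
      have h1 : um F₀ ϑ (F₀⁻¹.mulVec y) = y := by
        unfold um
        rw [h.zero _ hx, add_zero, Matrix.mulVec_mulVec, Matrix.mul_nonsing_inv _ hF,
          Matrix.one_mulVec]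
      have h2 := h.left (F₀⁻¹.mulVec y)
      rw [h1] at h2
      rw [← h2] at hx
      exact hx hy
    · rw [lm_apply, Matrix.mulVec_mulVec, Matrix.mul_nonsing_inv _ hF, Matrix.one_mulVec]
  · rintro ⟨x, hx, rfl⟩
    by_contra hc
    have hc' : v (lm F₀ x) ∉ Ω := hc
    have h1 := h.right (lm F₀ x)
    unfold um at h1
    rw [h.zero _ hc', add_zero, lm_apply] at h1
    have h2 : F₀⁻¹.mulVec (F₀.mulVec (v (F₀.mulVec x))) = F₀⁻¹.mulVec (F₀.mulVec x) := by rw [h1]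
    rw [Matrix.mulVec_mulVec, Matrix.nonsing_inv_mul _ hF, Matrix.one_mulVec,
      Matrix.mulVec_mulVec, Matrix.nonsing_inv_mul _ hF, Matrix.one_mulVec] at h2
    rw [lm_apply, h2] at hc'
    exact hc' hx

theorem shield {S : M2 → ℝ} (hS : Quasiconvex S) (h : Hom F₀ Ω ϑ v K K') :
    S F₀⁻¹ * (F₀.det * (volume Ω).toReal) ≤
      ∫ x in Ω, (F₀ + mx ϑ x).det * S (F₀ + mx ϑ x)⁻¹ := by
  have hF : IsUnit F₀.det := h.det.ne'.isUnit
  set ψ : V2 → V2 := fun y => v y - F₀⁻¹.mulVec y with hψ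
  have hψl : LipschitzWith (K' + ‖lm F₀⁻¹‖₊) ψ := h.lipv.sub (lm F₀⁻¹).lipschitz
  have hψ0 : ∀ y, y ∉ v ⁻¹' Ω → ψ y = 0 := by
    intro y hy
    have h1 := h.right y
    unfold um at h1
    rw [h.zero _ hy, add_zero] at h1
    have h2 : F₀⁻¹.mulVec (F₀.mulVec (v y)) = F₀⁻¹.mulVec y := by rw [h1]
    rw [Matrix.mulVec_mulVec, Matrix.nonsing_inv_mul _ hF, Matrix.one_mulVec] at h2
    show v y - F₀⁻¹.mulVec y = 0
    rw [← h2, sub_self]
  have hopen : IsOpen (v ⁻¹' Ω) := h.opn.preimage h.lipv.continuous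
  have hbdd : Bornology.IsBounded (v ⁻¹' Ω) := by
    refine ((u_lip h).isBounded_image h.bdd).subset ?_
    intro y hy
    exact ⟨v y, hy, h.right y⟩
  have hq := hS F₀⁻¹ (v ⁻¹' Ω) hopen hbdd ψ ⟨_, hψl⟩ hψ0
  have hvol : (volume (v ⁻¹' Ω)).toReal = F₀.det * (volume Ω).toReal := by
    have hd : LinearMap.det ((lm F₀ : V2 →L[ℝ] V2) : V2 →ₗ[ℝ] V2) = F₀.det := lm_det F₀
    rw [img h, Measure.addHaar_image_continuousLinearMap]
    show (ENNReal.ofReal |LinearMap.det ((lm F₀ : V2 →L[ℝ] V2) : V2 →ₗ[ℝ] V2)|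
      * volume Ω).toReal = _
    rw [hd, abs_of_pos h.det, ENNReal.toReal_mul, ENNReal.toReal_ofReal h.det.le]
  rw [hvol] at hq
  refine hq.trans (le_of_eq ?_)
  -- change of variables
  set g : V2 → ℝ := fun y => S (F₀⁻¹ + LinearMap.toMatrix'
    ((fderiv ℝ ψ y : V2 →L[ℝ] V2) : V2 →ₗ[ℝ] V2)) with hg
  set D := Dg F₀ Ω ϑ with hD
  have hinj : InjOn (um F₀ ϑ) D := h.left.injective.injOn
  have hcv := integral_image_eq_integral_abs_det_fderiv_smul (volume : Measure V2) (Dg_meas h)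
    (f' := fun x => lm F₀ + fderiv ℝ ϑ x)
    (fun x hx => (um_der F₀ ϑ x hx.2.1).hasFDerivWithinAt) hinj g
  have e1 : ∫ y in v ⁻¹' Ω, g y = ∫ y in um F₀ ϑ '' D, g y := by
    refine setIntegral_congr_set ?_
    refine (ae_eq_set).2 ⟨?_, ?_⟩
    · refine measure_mono_null ?_ (null_image (u_lip h) (Dg_ae h))
      rintro y ⟨hy1, hy2⟩
      refine ⟨v y, ⟨hy1, fun hc => hy2 ⟨v y, hc, h.right y⟩⟩, h.right y⟩
    · have : um F₀ ϑ '' D \ v ⁻¹' Ω = ∅ := by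
        rw [diff_eq_empty]
        rintro y ⟨x, hx, rfl⟩
        show v (um F₀ ϑ x) ∈ Ω
        rw [h.left x]
        exact hx.1
      rw [this, measure_empty]
  have e2 : ∫ x in D, |(lm F₀ + fderiv ℝ ϑ x).det| • g (um F₀ ϑ x)
      = ∫ x in D, (F₀ + mx ϑ x).det * S (F₀ + mx ϑ x)⁻¹ := by
    refine setIntegral_congr_fun (Dg_meas h) ?_
    intro x hx
    obtain ⟨h1, h2⟩ := inv_der h hx.2.1 hx.2.2
    have h3 : (lm F₀ + fderiv ℝ ϑ x).det = (F₀ + mx ϑ x).det := by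
      rw [← clm_det, mat_add]
      rfl
    have h4 : F₀⁻¹ + LinearMap.toMatrix' ((fderiv ℝ ψ (um F₀ ϑ x) : V2 →L[ℝ] V2) : V2 →ₗ[ℝ] V2)
        = (F₀ + mx ϑ x)⁻¹ := by
      have h5 : HasFDerivAt ψ (fderiv ℝ v (um F₀ ϑ x) - lm F₀⁻¹) (um F₀ ϑ x) :=
        h1.hasFDerivAt.sub (lm F₀⁻¹).hasFDerivAt
      rw [h5.fderiv, ContinuousLinearMap.toLinearMap_sub, map_sub, lm_mat, ← h2]
      unfold mx
      abel
    show |(lm F₀ + fderiv ℝ ϑ x).det| • S (F₀⁻¹ + LinearMap.toMatrix'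
      ((fderiv ℝ ψ (um F₀ ϑ x) : V2 →L[ℝ] V2) : V2 →ₗ[ℝ] V2)) = _
    rw [h4, h3, abs_of_pos hx.2.2, smul_eq_mul]
  have e3 : ∫ x in D, (F₀ + mx ϑ x).det * S (F₀ + mx ϑ x)⁻¹
      = ∫ x in Ω, (F₀ + mx ϑ x).det * S (F₀ + mx ϑ x)⁻¹ := by
    refine setIntegral_congr_set ?_
    refine (ae_eq_set).2 ⟨?_, Dg_ae h⟩
    have : D \ Ω = ∅ := by
      rw [diff_eq_empty]
      exact fun x hx => hx.1
    rw [this, measure_empty]
  rw [e1, hcv, e2, e3]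

end

end Pool.Agent.TH594.MG
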