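import Pool.Agent.W360.MQ.Qkb
import Pool.Agent.TH594.MG.Rc
import Pool.Agent.TH594.MG.Shield

/-! The dual functions are quasiconvex on all real `2 × 2` matrices. -/

set_option autoImplicit false

namespace Pool.Agent.TH594.MG

open MeasureTheory Set Filter Topology Pool.Agent.W360.MQ
open Pool.Agent.W978.MQ (G)
open scoped ComplexConjugate

/-- the dual function, in the variables `(u_z, u_zbar)` -/
noncomputable def wd (c C0 lam eta : ℝ) (al be : ℂ) (F : ℂ × ℂ) : ℝ :=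
  c * wf (fun s => s ^ 2) (fun s => -(2 * Real.log s)) F + C0 * (‖F.1‖ ^ 2 - ‖F.2‖ ^ 2)
    + lam * ((conj al * conj F.1).re - (conj be * F.2).re) + eta

lemma G_magic : G (wf (fun s => s ^ 2) (fun s => -(2 * Real.log s))) :=
  ⟨Pool.Agent.W215.MQ.Cont.main _ _ rc_magic, Pool.Agent.W360.MQ.Fin.qa _ _ rc_magic⟩

lemma G_lin (lam : ℝ) (al be : ℂ) :
    G (fun F : ℂ × ℂ => lam * ((conj al * conj F.1).re - (conj be * F.2).re)) := by
  have hc : Continuous fun F : ℂ × ℂ => lam * ((conj al * conj F.1).re - (conj be * F.2).re) := by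
    fun_prop
  refine ⟨hc, Pool.Agent.W465.MQ.CVX.main _ ?_ hc⟩
  refine ⟨convex_univ, ?_⟩
  intro x _ y _ u v _ _ _
  refine le_of_eq ?_
  simp only [Prod.fst_add, Prod.snd_add, Prod.smul_fst, Prod.smul_snd, smul_eq_mul,
    Complex.real_smul, map_add, map_mul, Complex.conj_ofReal, Complex.mul_re, Complex.add_re,
    Complex.add_im, Complex.mul_im, Complex.ofReal_re, Complex.ofReal_im, Complex.conj_re,
    Complex.conj_im]
  ring

lemma G_wd (c C0 lam eta : ℝ) (hc : 0 ≤ c) (al be : ℂ) : G (wd c C0 lam eta al be) := by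
  have h1 := G_magic.smul hc
  have h2 : G (fun F : ℂ × ℂ => C0 * (‖F.1‖ ^ 2 - ‖F.2‖ ^ 2)) :=
    ⟨by fun_prop, Pool.Agent.W925.MQ.Det.main C0⟩
  have h3 := G_lin lam al be
  have h4 : G (fun _ : ℂ × ℂ => eta) :=
    ⟨continuous_const, Pool.Agent.W465.MQ.CVX.main _ (convexOn_const eta convex_univ)
      continuous_const⟩
  exact ((h1.add h2).add h3).add h4

theorem qc_wd (c C0 lam eta : ℝ) (hc : 0 ≤ c) (al be : ℂ) :
    Quasiconvex (fun A => wd c C0 lam eta al be (cab A)) :=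
  Pool.Agent.W360.MQ.All.om _ (G_wd c C0 lam eta hc al be).1 (G_wd c C0 lam eta hc al be).2

section
open scoped Matrix.Norms.L2Operator

lemma opn (A : M2) : ‖A‖ = ‖(cab A).1‖ + ‖(cab A).2‖ ∧
    A.det = ‖(cab A).1‖ ^ 2 - ‖(cab A).2‖ ^ 2 := Pool.Agent.W74.MQ.OPN.main A

/-- the inverse matrix in the variables `(u_z, u_zbar)` -/
lemma cab_inv (A : M2) (hA : 0 < A.det) :
    (cab A⁻¹).1 = conj (cab A).1 / (A.det : ℂ) ∧ (cab A⁻¹).2 = -(cab A).2 / (A.det : ℂ) := by
  have hd : (A.det : ℂ) ≠ 0 := Complex.ofReal_ne_zero.2 hA.ne'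
  have e : A⁻¹ = A.det⁻¹ • !![A 1 1, -A 0 1; -A 1 0, A 0 0] := by
    rw [Matrix.inv_def, Matrix.adjugate_fin_two, Ring.inverse_eq_inv']
  have e00 : A⁻¹ 0 0 = A.det⁻¹ * A 1 1 := by rw [e]; simp
  have e01 : A⁻¹ 0 1 = A.det⁻¹ * -A 0 1 := by rw [e]; simp
  have e10 : A⁻¹ 1 0 = A.det⁻¹ * -A 1 0 := by rw [e]; simp
  have e11 : A⁻¹ 1 1 = A.det⁻¹ * A 0 0 := by rw [e]; simp
  unfold cab
  rw [e00, e01, e10, e11]
  constructor
  · simp only [map_div₀, map_add, map_mul, Complex.conj_ofReal, Complex.conj_I]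
    have h2 : conj (2 : ℂ) = 2 := Complex.conj_ofReal 2
    rw [h2]
    push_cast
    field_simp
    ring
  · push_cast
    field_simp
    ring

lemma norm_inv (A : M2) (hA : 0 < A.det) : ‖A⁻¹‖ = ‖A‖ / A.det := by
  rw [(opn A⁻¹).1, (opn A).1, (cab_inv A hA).1, (cab_inv A hA).2, norm_div, norm_div, norm_neg,
    RCLike.norm_conj, Complex.norm_real, Real.norm_eq_abs, abs_of_pos hA]
  ring

lemma norm_pos' (A : M2) (hA : 0 < A.det) : 0 < ‖A‖ := by
  refine norm_pos_iff.2 ?_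
  rintro rfl
  simp at hA

/-- the value of the dual function at the inverse matrix -/
lemma wd_inv (c C0 lam eta : ℝ) (al be : ℂ) (A : M2) (hA : 0 < A.det) :
    A.det * wd c C0 lam eta al be (cab A⁻¹) =
      c * (‖A‖ ^ 2 / A.det - Real.log (‖A‖ ^ 2 / A.det) + Real.log A.det) + C0
        + lam * ((conj al * (cab A).1).re + (conj be * (cab A).2).re) + eta * A.det := by
  have hn := norm_pos' A hA
  have hdi : A⁻¹.det = A.det⁻¹ := by
    rw [Matrix.det_nonsing_inv, Ring.inverse_eq_inv']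
  unfold wd wf
  simp only
  rw [← (opn A⁻¹).1, ← (opn A⁻¹).2, norm_inv A hA, hdi, (cab_inv A hA).1, (cab_inv A hA).2]
  have hl1 : Real.log (‖A‖ / A.det) = Real.log ‖A‖ - Real.log A.det :=
    Real.log_div hn.ne' hA.ne'
  have hl2 : Real.log (‖A‖ ^ 2 / A.det) = 2 * Real.log ‖A‖ - Real.log A.det := by
    rw [Real.log_div (pow_ne_zero 2 hn.ne') hA.ne', Real.log_pow]
    push_cast
    ring
  rw [hl1, hl2]
  have h1 : (conj al * conj (conj (cab A).1 / (A.det : ℂ))).re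
      = (conj al * (cab A).1).re / A.det := by
    rw [map_div₀, Complex.conj_conj, Complex.conj_ofReal, ← mul_div_assoc, Complex.div_ofReal_re]
  have h2 : (conj be * (-(cab A).2 / (A.det : ℂ))).re = -(conj be * (cab A).2).re / A.det := by
    rw [← mul_div_assoc, Complex.div_ofReal_re, mul_neg, Complex.neg_re]
  rw [h1, h2]
  field_simp
  ring

end

end Pool.Agent.TH594.MG
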