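import Pool.Agent.TH594.MG.C1
import Pool.Agent.TH594.MG.Qc
import Pool.Agent.TH594.MG.Ext

/-! Planar energies with a volumetric-isochoric split. -/

set_option autoImplicit false

namespace Pool.Agent.TH594.MG

open MeasureTheory Set Filter Topology Pool.Agent.W360.MQ
open scoped ComplexConjugate Matrix.Norms.L2Operator

/-! ### one-dimensional support lines -/

lemma supp_g {h : ℝ → ℝ} (hh : ContDiffOn ℝ 2 h (Ici 1)) {c : ℝ}
    (hg : ConvexOn ℝ (Ici 1) (fun k => h k - c * (k - Real.log k)))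
    (h1 : ∀ k, 1 ≤ k → h 1 - c * (1 - Real.log 1) ≤ h k - c * (k - Real.log k))
    {k0 : ℝ} (hk0 : 1 ≤ k0) :
    ∃ m : ℝ, 0 ≤ m ∧ ∀ k, 1 ≤ k →
      h k0 - c * (k0 - Real.log k0) + m * (k - k0) ≤ h k - c * (k - Real.log k) := by
  rcases eq_or_lt_of_le hk0 with he | hlt
  · subst he
    refine ⟨0, le_rfl, fun k hk => ?_⟩
    rw [zero_mul, add_zero]
    exact h1 k hk
  · set g : ℝ → ℝ := fun k => h k - c * (k - Real.log k) with hgdef
    have hd : HasDerivAt g (deriv h k0 - c * (1 - k0⁻¹)) k0 :=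
      (h_der hh hlt).1.sub (((hasDerivAt_id k0).sub
        (Real.hasDerivAt_log (by linarith))).const_mul c)
    set m : ℝ := deriv h k0 - c * (1 - k0⁻¹) with hm
    have hs : ∀ k, 1 ≤ k → g k0 + m * (k - k0) ≤ g k := by
      intro k hk
      rcases lt_trichotomy k k0 with hlt' | heq | hgt
      · have h2 := hg.slope_le_of_hasDerivAt (mem_Ici.2 hk) (mem_Ici.2 hk0) hlt' hd
        rw [slope_def_field, div_le_iff₀ (by linarith)] at h2
        show g k0 + m * (k - k0) ≤ g k
        have h3 : g k0 - g k ≤ m * (k0 - k) := h2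
        linarith
      · subst heq
        simp
      · have h2 := hg.le_slope_of_hasDerivAt (mem_Ici.2 hk0) (mem_Ici.2 hk) hgt hd
        rw [slope_def_field, le_div_iff₀ (by linarith)] at h2
        have h3 : m * (k - k0) ≤ g k - g k0 := h2
        linarith
    refine ⟨m, ?_, hs⟩
    have h2 := hs 1 le_rfl
    have h3 : g 1 ≤ g k0 := h1 k0 hk0
    by_contra hneg
    push Not at hneg
    nlinarith

lemma supp_f {f : ℝ → ℝ} (hf : ContDiffOn ℝ 2 f (Ioi 0)) {c : ℝ}
    (hg : ConvexOn ℝ (Ioi 0) (fun z => f z - c * Real.log z)) {z0 : ℝ} (hz0 : 0 < z0) :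
    ∃ n : ℝ, ∀ z, 0 < z → f z0 - c * Real.log z0 + n * (z - z0) ≤ f z - c * Real.log z := by
  set g : ℝ → ℝ := fun z => f z - c * Real.log z with hgdef
  have hd : HasDerivAt g (deriv f z0 - c * z0⁻¹) z0 :=
    (f_der hf hz0).1.sub ((Real.hasDerivAt_log hz0.ne').const_mul c)
  refine ⟨deriv f z0 - c * z0⁻¹, fun k hk => ?_⟩
  set m : ℝ := deriv f z0 - c * z0⁻¹ with hm
  rcases lt_trichotomy k z0 with hlt' | heq | hgt
  · have h2 := hg.slope_le_of_hasDerivAt (mem_Ioi.2 hk) (mem_Ioi.2 hz0) hlt' hd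
    rw [slope_def_field, div_le_iff₀ (by linarith)] at h2
    have h3 : g z0 - g k ≤ m * (z0 - k) := h2
    show g z0 + m * (k - z0) ≤ g k
    linarith
  · subst heq
    simp
  · have h2 := hg.le_slope_of_hasDerivAt (mem_Ioi.2 hz0) (mem_Ioi.2 hk) hgt hd
    rw [slope_def_field, le_div_iff₀ (by linarith)] at h2
    have h3 : m * (k - z0) ≤ g k - g z0 := h2
    show g z0 + m * (k - z0) ≤ g k
    linarith

lemma exists_unit (a : ℂ) : ∃ al : ℂ, ‖al‖ ≤ 1 ∧ (conj al * a).re = ‖a‖ := by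
  by_cases ha : a = 0
  · exact ⟨0, by simp, by simp [ha]⟩
  · have hn : ‖a‖ ≠ 0 := norm_ne_zero_iff.2 ha
    refine ⟨a / (‖a‖ : ℂ), ?_, ?_⟩
    · rw [norm_div, Complex.norm_real, norm_norm, div_self hn]
    · rw [map_div₀, Complex.conj_ofReal, div_mul_eq_mul_div, mul_comm, Complex.mul_conj,
        Complex.normSq_eq_norm_sq, Complex.div_ofReal_re, Complex.ofReal_re]
      field_simp

lemma re_le (al a : ℂ) (h : ‖al‖ ≤ 1) : (conj al * a).re ≤ ‖a‖ := by
  refine (Complex.re_le_norm _).trans ?_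
  rw [norm_mul, RCLike.norm_conj]
  nlinarith [norm_nonneg a]

/-! ### matrices -/

lemma det_le (A : M2) : A.det ≤ ‖A‖ ^ 2 := by
  rw [(opn A).1, (opn A).2]
  nlinarith [norm_nonneg (cab A).1, norm_nonneg (cab A).2]

lemma K_ge (A : M2) (hA : 0 < A.det) : 1 ≤ ‖A‖ ^ 2 / A.det := by
  rw [one_le_div hA]
  exact det_le A

/-- the support inequality for `‖A‖² / det A` -/
lemma K_supp {A : M2} (hA : 0 < A.det) {s0 d0 l : ℝ} (hd0 : 0 < d0) (hs0 : 0 ≤ s0)
    (hl : l ≤ ‖A‖) : 2 * (s0 / d0) * l - s0 ^ 2 / d0 ^ 2 * A.det ≤ ‖A‖ ^ 2 / A.det := by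
  have h1 : 2 * (s0 / d0) * ‖A‖ - s0 ^ 2 / d0 ^ 2 * A.det ≤ ‖A‖ ^ 2 / A.det := by
    rw [le_div_iff₀ hA]
    have : (2 * (s0 / d0) * ‖A‖ - s0 ^ 2 / d0 ^ 2 * A.det) * A.det
        = 2 * ((s0 / d0) * A.det) * ‖A‖ - ((s0 / d0) * A.det) ^ 2 := by ring
    rw [this]
    nlinarith [sq_nonneg ((s0 / d0) * A.det - ‖A‖)]
  have h2 : 2 * (s0 / d0) * l ≤ 2 * (s0 / d0) * ‖A‖ :=
    mul_le_mul_of_nonneg_left hl (by positivity)
  linarith

lemma diag_norm (s t : ℝ) (hs : 0 < s) (ht : 0 < t) :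
    ‖(!![s, 0; 0, t] : M2)‖ = max s t ∧ (!![s, 0; 0, t] : M2).det = s * t := by
  refine ⟨?_, by simp [Matrix.det_fin_two]⟩
  rw [(opn _).1]
  have h1 : (cab !![s, 0; 0, t]).1 = (((s + t) / 2 : ℝ) : ℂ) := by
    unfold cab
    simp
  have h2 : (cab !![s, 0; 0, t]).2 = (((s - t) / 2 : ℝ) : ℂ) := by
    unfold cab
    simp
  rw [h1, h2, Complex.norm_real, Complex.norm_real, Real.norm_eq_abs, Real.norm_eq_abs]
  rcases le_total s t with h | h
  · rw [max_eq_right h, abs_of_pos (by linarith), abs_of_nonpos (by linarith)]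
    ring
  · rw [max_eq_left h, abs_of_pos (by linarith), abs_of_nonneg (by linarith)]
    ring

/-- rank-one convexity on the matrices of positive determinant -/
def RankOneConvexPos (W : M2 → ℝ) : Prop :=
  ∀ F H : M2, H.rank = 1 → 0 < F.det → 0 < (F + H).det → ∀ t : ℝ, 0 ≤ t → t ≤ 1 →
    W ((1 - t) • F + t • (F + H)) ≤ (1 - t) * W F + t * W (F + H)

lemma dia_convex {h f : ℝ → ℝ} {W : M2 → ℝ}
    (hW : ∀ A : M2, 0 < A.det → W A = h (‖A‖ ^ 2 / A.det) + f A.det)
    (hR : RankOneConvexPos W) : ∀ t, 0 < t → ConvexOn ℝ (Ioi 0) (dia h f t) := by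
  intro t ht
  refine ⟨convex_Ioi 0, ?_⟩
  intro x hx y hy a b ha hb hab
  have hx0 : (0 : ℝ) < x := hx
  have hy0 : (0 : ℝ) < y := hy
  have hval : ∀ s, 0 < s → W !![s, 0; 0, t] = dia h f t s := by
    intro s hs
    obtain ⟨h1, h2⟩ := diag_norm s t hs ht
    rw [hW _ (by rw [h2]; positivity), h1, h2]
    rfl
  rcases eq_or_ne x y with hxy | hxy
  · subst hxy
    have : a • x + b • x = x := by rw [← add_smul, hab, one_smul]
    rw [this, ← add_smul, hab, one_smul]
  · have e1 : (!![x, 0; 0, t] : M2) + !![y - x, 0; 0, 0] = !![y, 0; 0, t] := by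
      ext i j
      fin_cases i <;> fin_cases j <;> simp
    have hrk : (!![y - x, 0; 0, 0] : M2).rank = 1 := by
      have e2 : (!![y - x, 0; 0, 0] : M2) = Matrix.vecMulVec ![y - x, 0] ![1, 0] := by
        ext i j
        fin_cases i <;> fin_cases j <;> simp [Matrix.vecMulVec]
      refine le_antisymm ?_ ?_
      · rw [e2]
        exact Matrix.rank_vecMulVec_le _ _
      · rw [Nat.one_le_iff_ne_zero]
        intro h0
        rw [Matrix.rank, Submodule.finrank_eq_zero, LinearMap.range_eq_bot] at h0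
        have h1 : (!![y - x, 0; 0, 0] : M2).mulVecLin (Pi.single 0 1) 0 = 0 := by
          rw [h0]
          rfl
        simp [Matrix.mulVecLin_apply, Matrix.mulVec, dotProduct, Fin.sum_univ_two] at h1
        exact hxy (by linarith)
    have h3 := hR !![x, 0; 0, t] !![y - x, 0; 0, 0] hrk
      (by rw [(diag_norm x t hx0 ht).2]; positivity)
      (by rw [e1, (diag_norm y t hy0 ht).2]; positivity) b hb (by linarith)
    rw [e1, hval x hx0, hval y hy0] at h3
    have ha' : 1 - b = a := by linarith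
    rw [ha'] at h3
    have e3 : a • (!![x, 0; 0, t] : M2) + b • !![y, 0; 0, t] = !![a * x + b * y, 0; 0, t] := by
      ext i j
      fin_cases i <;> fin_cases j <;> simp
      rw [← add_mul, hab, one_mul]
    rw [e3, hval _ (by
      rcases eq_or_lt_of_le ha with h0 | h0
      · rw [← h0, zero_add] at hab
        rw [← h0, hab]
        linarith
      · have := mul_pos h0 hx0
        have := mul_nonneg hb hy0.le
        linarith)] at h3
    simpa only [smul_eq_mul] using h3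

lemma cont_cab : Continuous cab := by
  unfold cab
  fun_prop

lemma cont_norm : Continuous fun A : M2 => ‖A‖ := by
  have : (fun A : M2 => ‖A‖) = fun A : M2 => ‖(cab A).1‖ + ‖(cab A).2‖ := by
    funext A
    exact (opn A).1
  rw [this]
  exact (continuous_fst.comp cont_cab).norm.add (continuous_snd.comp cont_cab).norm

lemma cont_K : ContinuousOn (fun A : M2 => ‖A‖ ^ 2 / A.det) {A | 0 < A.det} := by
  refine ContinuousOn.div (cont_norm.pow 2).continuousOn continuous_id.matrix_det.continuousOn ?_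
  intro A hA
  exact ne_of_gt hA

/-- the conclusion from a pointwise lower bound -/
theorem fin_of_supp {h f : ℝ → ℝ} {W : M2 → ℝ} (hh : ContinuousOn h (Ici 1))
    (hf : ContinuousOn f (Ioi 0))
    (hW : ∀ A : M2, 0 < A.det → W A = h (‖A‖ ^ 2 / A.det) + f A.det)
    {F₀ : M2} {Ω : Set V2} {ϑ v : V2 → V2} {K K' : NNReal} (hH : Hom F₀ Ω ϑ v K K')
    {c C0 lam eta : ℝ} {al be : ℂ} (hc0 : 0 ≤ c)
    (hpt : ∀ A : M2, 0 < A.det →
      c * (‖A‖ ^ 2 / A.det - Real.log (‖A‖ ^ 2 / A.det) + Real.log A.det) + C0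
        + lam * ((conj al * (cab A).1).re + (conj be * (cab A).2).re) + eta * A.det ≤ W A)
    (heq : c * (‖F₀‖ ^ 2 / F₀.det - Real.log (‖F₀‖ ^ 2 / F₀.det) + Real.log F₀.det) + C0
        + lam * ((conj al * (cab F₀).1).re + (conj be * (cab F₀).2).re) + eta * F₀.det = W F₀) :
    IntegrableOn (fun x => W (F₀ + mx ϑ x)) Ω ∧
      W F₀ * (volume Ω).toReal ≤ ∫ x in Ω, W (F₀ + mx ϑ x) := by
  have hF := hH.det
  have hcW : ContinuousOn W {A | 0 < A.det} := by
    have h1 : ContinuousOn (fun A : M2 => h (‖A‖ ^ 2 / A.det) + f A.det) {A | 0 < A.det} := by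
      refine ContinuousOn.add ?_ ?_
      · exact hh.comp cont_K fun A hA => K_ge A hA
      · exact hf.comp continuous_id.matrix_det.continuousOn fun A hA => hA
    exact h1.congr fun A hA => hW A hA
  have hcS : ContinuousOn (fun A : M2 => A.det * wd c C0 lam eta al be (cab A⁻¹))
      {A | 0 < A.det} := by
    have h0 : ContinuousOn (fun A : M2 => Real.log A.det) {A | 0 < A.det} :=
      ContinuousOn.log continuous_id.matrix_det.continuousOn fun A hA => ne_of_gt hA
    have h0' : ContinuousOn (fun A : M2 => Real.log (‖A‖ ^ 2 / A.det)) {A | 0 < A.det} :=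
      ContinuousOn.log cont_K fun A hA => by
        have := K_ge A hA
        linarith
    have h1 : ContinuousOn (fun A : M2 =>
        c * (‖A‖ ^ 2 / A.det - Real.log (‖A‖ ^ 2 / A.det) + Real.log A.det) + C0
        + lam * ((conj al * (cab A).1).re + (conj be * (cab A).2).re) + eta * A.det)
        {A | 0 < A.det} := by
      have h2 : Continuous fun A : M2 =>
          lam * ((conj al * (cab A).1).re + (conj be * (cab A).2).re) := by
        have := cont_cab
        fun_prop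
      have h3 : Continuous fun A : M2 => eta * A.det :=
        continuous_const.mul continuous_id.matrix_det
      exact (((continuousOn_const.mul ((cont_K.sub h0').add h0)).add continuousOn_const).add
        h2.continuousOn).add h3.continuousOn
    exact h1.congr fun A hA => wd_inv c C0 lam eta al be A hA
  refine ⟨integ hH hcW, ?_⟩
  have hsh := shield (qc_wd c C0 lam eta hc0 al be) hH
  have hmono : ∫ x in Ω, (F₀ + mx ϑ x).det * wd c C0 lam eta al be (cab (F₀ + mx ϑ x)⁻¹)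
      ≤ ∫ x in Ω, W (F₀ + mx ϑ x) := by
    refine integral_mono_ae (integ hH hcS) (integ hH hcW) ?_
    refine ae_restrict_of_ae ?_
    filter_upwards [hH.pos] with x hx
    rw [wd_inv c C0 lam eta al be _ hx]
    exact hpt _ hx
  refine le_trans (le_of_eq ?_) (hsh.trans hmono)
  rw [← heq, ← wd_inv c C0 lam eta al be F₀ hF]
  ring

/-- **Case A**: `f` is not of the form convex minus `c log` with `c > 0`. -/
theorem caseA {h f : ℝ → ℝ} {W : M2 → ℝ} (hh : ContDiffOn ℝ 2 h (Ici 1))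
    (hf : ContDiffOn ℝ 2 f (Ioi 0))
    (hW : ∀ A : M2, 0 < A.det → W A = h (‖A‖ ^ 2 / A.det) + f A.det)
    (hR : RankOneConvexPos W)
    (hN : ∀ c : ℝ, 0 < c → ¬ ConvexOn ℝ (Ioi 0) fun z => f z + c * Real.log z)
    {F₀ : M2} {Ω : Set V2} {ϑ v : V2 → V2} {K K' : NNReal} (hH : Hom F₀ Ω ϑ v K K') :
    IntegrableOn (fun x => W (F₀ + mx ϑ x)) Ω ∧
      W F₀ * (volume Ω).toReal ≤ ∫ x in Ω, W (F₀ + mx ϑ x) := by
  obtain ⟨c, hc0, hg, hg1, hφ⟩ := ex_c hh hf (dia_convex hW hR) hN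
  have hF := hH.det
  set d0 : ℝ := F₀.det with hd0
  set s0 : ℝ := ‖F₀‖ with hs0
  have hs0p : 0 < s0 := norm_pos' F₀ hF
  set k0 : ℝ := s0 ^ 2 / d0 with hk0
  obtain ⟨m, hm0, hm⟩ := supp_g hh hg hg1 (K_ge F₀ hF)
  obtain ⟨n, hn⟩ := supp_f hf hφ hF
  obtain ⟨al, hal, hal2⟩ := exists_unit (cab F₀).1
  obtain ⟨be, hbe, hbe2⟩ := exists_unit (cab F₀).2
  -- the constants of the affine function
  set lam : ℝ := 2 * m * (s0 / d0) with hlam
  set eta : ℝ := n - m * (s0 ^ 2 / d0 ^ 2) with heta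
  set C0 : ℝ := (h k0 - c * (k0 - Real.log k0)) - m * k0 + (f d0 - c * Real.log d0) - n * d0
    with hC0
  refine fin_of_supp (c := c) (C0 := C0) (lam := lam) (eta := eta) (al := al) (be := be)
    hh.continuousOn hf.continuousOn hW hH hc0 ?_ ?_
  · intro A hA
    rw [hW A hA]
    have h1 := hm _ (K_ge A hA)
    have h2 := hn _ hA
    have h3 : (conj al * (cab A).1).re + (conj be * (cab A).2).re ≤ ‖A‖ := by
      rw [(opn A).1]
      exact add_le_add (re_le _ _ hal) (re_le _ _ hbe)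
    have h4 := K_supp hA hF hs0p.le h3
    have h5 := mul_le_mul_of_nonneg_left h4 hm0
    rw [hlam, heta, hC0]
    nlinarith
  · rw [hW F₀ hF]
    have h3 : (conj al * (cab F₀).1).re + (conj be * (cab F₀).2).re = s0 := by
      rw [hal2, hbe2, hs0, (opn F₀).1]
    rw [h3, ← hd0, ← hs0, ← hk0, hlam, heta, hC0, hk0]
    have hd0' : d0 ≠ 0 := hF.ne'
    field_simp
    ring

end Pool.Agent.TH594.MG
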