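import Mathlib

/-! Hadamard's global inverse function theorem for `C¹` maps that equal a linear isomorphism
outside a bounded set. -/

set_option autoImplicit false

namespace Pool.Agent.TH594.MG

open Set Filter Topology

variable {E : Type} [NormedAddCommGroup E] [NormedSpace ℝ E] [FiniteDimensional ℝ E]

theorem hadamard {u : E → E} (hu : ContDiff ℝ 1 u) (hd : ∀ x, (fderiv ℝ u x).det ≠ 0)
    (hp : Tendsto u (cocompact E) (cocompact E)) :
    ∃ v : E → E, Continuous v ∧ Function.LeftInverse v u ∧ Function.RightInverse v u := by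
  have hloc : ∀ x : E, ∃ φ : OpenPartialHomeomorph E E, x ∈ φ.source ∧ φ = u := by
    intro x
    set f' : E ≃L[ℝ] E := (fderiv ℝ u x).toContinuousLinearEquivOfDetNeZero (hd x) with hf'
    have hs : HasStrictFDerivAt u (f' : E →L[ℝ] E) x := by
      have h : HasStrictFDerivAt u (fderiv ℝ u x) x :=
        (hu.contDiffAt (x := x)).hasStrictFDerivAt (by norm_num)
      have e : (f' : E →L[ℝ] E) = fderiv ℝ u x := by
        rw [hf']
        exact ContinuousLinearMap.coe_toContinuousLinearEquivOfDetNeZero _ _
      rw [e]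
      exact h
    exact ⟨hs.toOpenPartialHomeomorph u, hs.mem_toOpenPartialHomeomorph_source,
      hs.toOpenPartialHomeomorph_coe⟩
  have hprop : IsProperMap u := isProperMap_iff_tendsto_cocompact.2 ⟨hu.continuous, hp⟩
  have hcl : IsClosedMap u := hprop.isClosedMap
  have hL : IsLocalHomeomorph u := by
    intro x
    obtain ⟨φ, h1, h2⟩ := hloc x
    exact ⟨φ, h1, h2.symm⟩
  have hcov : IsCoveringMap u := by
    rw [isCoveringMap_iff_isCoveringMapOn_univ]
    refine hcl.isCoveringMapOn_of_isLocalHomeomorphOn ?_ ?_
    · intro x _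
      refine (hprop.isCompact_preimage isCompact_singleton).finite ?_
      exact IsDiscrete.of_openPartialHomeomorph u subset_rfl fun e _ => hloc e
    · rw [preimage_univ, ← isLocalHomeomorph_iff_isLocalHomeomorphOn_univ]
      exact hL
  haveI : SimplyConnectedSpace E := SimplyConnectedSpace.ofContractible E
  obtain ⟨σ, ⟨hσ0, hσ⟩, -⟩ := hcov.existsUnique_continuousMap_lifts
    (⟨id, continuous_id⟩ : C(E, E)) (u 0) 0 rfl
  have hright : ∀ y, u (σ y) = y := fun y => congrFun hσ y
  have hleft : (σ ∘ u) = id := by
    refine hcov.eq_of_comp_eq (σ.continuous.comp hu.continuous) continuous_id ?_ 0 ?_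
    · funext x
      exact hright (u x)
    · exact hσ0
  exact ⟨σ, σ.continuous, fun x => congrFun hleft x, hright⟩

end Pool.Agent.TH594.MG
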